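import Pool.Agent.Helper317.Comp

/-!
The structure satisfies RCA0 and collection for Sigma-2 formulas.
-/

namespace Pool.Agent.Helper317.SOA

open Function Filter

theorem choose_seq {P : ℕ → ℕ → Prop} (h : Ev fun n => ∃ y, P n y) : ∃ f : ℕ → ℕ, Ev fun n => P n (f n) := by
  classical
  refine ⟨fun n => if h : ∃ y, P n y then h.choose else 0, h.mp fun n hn => ?_⟩
  simp only [dif_pos hn]; exact hn.choose_spec

/-- existential number quantification inside the class -/
def exP (P : Fm) (j : ℕ) : Fm :=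
  .ex (3 * j + 1) (.and (.mem (pairT (.var (3 * j + 1)) (.var 0)) (Nat.pair 0 0)) (up P))

theorem satN_exP {P : Fm} {j n m : ℕ} {a b : ℕ → ℕ} :
    satN (asg (zi n m) a b) (exP P j) ↔ ∃ y ≤ m, satN (asg (zi n m) (update a j y) b) (up P) := by
  unfold exP
  rw [satN_ex]
  refine exists_congr fun y => ?_
  rw [satN_and, satN_mem, val_pairT_NM, update_asg_one]
  have : (pr ((Tm.var (3 * j + 1)).val NM (asg (zi n m) (update a j y) b))
      ((Tm.var 0).val NM (asg (zi n m) (update a j y) b)) ∈ base 0 0) ↔ y ≤ m := by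
    simp only [Tm.val, asg_one, asg_zero, update_self]
    constructor
    · rintro ⟨y', z', h1, h2⟩
      obtain ⟨rfl, rfl⟩ := pr_inj h1
      rwa [zi, dc_cd, Zr_length] at h2
    · intro h
      exact ⟨y, _, rfl, by rw [zi, dc_cd, Zr_length]; exact h⟩
  rw [this]

theorem Sg_exP {P : Fm} {j : ℕ} {v w : ℕ → Car} :
    Sg (exP P j) v w ↔ ∃ y : Car, Sg P (update v j y) w := by
  constructor
  · rintro ⟨m, hm⟩
    obtain ⟨f, hf⟩ := choose_seq (hm.mp fun n hn => satN_exP.1 hn)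
    have hfb : ∃ k, Ev fun n => f n < gg n k := bound_of_lt (x := m) (hf.mp fun n hn => hn.1)
    refine ⟨mk f hfb, Sg_up_iff.1 ⟨m, hf.mp2 (rep_mk hfb) fun n h1 h2 => ?_⟩⟩
    rw [rv_update, h2]; exact h1.2
  · rintro ⟨y, hy⟩
    obtain ⟨k, hk1, hk2, hk3⟩ := exists_small v w P.bd y
    have := St_of_Sg (hk1.update j hk3) hk2 hy
    refine ⟨gk (k + 1), (this.and hk3).mp2 (rep_gk (k + 1)) ?_⟩
    rintro n ⟨h1, h2⟩ h3
    rw [h3, satN_exP]
    refine ⟨rep y n, h2.le.trans ((gg_strictMono n).monotone (Nat.le_succ k)), ?_⟩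
    rw [rv_update, St_iff_up] at h1
    exact h1

theorem cadd_comm_mk {f : ℕ → ℕ} (hf : ∃ k, Ev fun n => f n < gg n k)
    (hf' : ∃ k, Ev fun n => f n - 1 < gg n k) (hpos : Ev fun n => 0 < f n) :
    cadd (mk (fun n => f n - 1) hf') (cst 1) = mk f hf := by
  rw [car_ext]
  refine ((rep_cadd (mk (fun n => f n - 1) hf') (cst 1)).and (rep_mk hf')).mp2
    (((rep_cst 1).and (rep_mk hf)).and hpos) ?_
  rintro n ⟨h1, h2⟩ ⟨⟨h3, h4⟩, h5⟩
  rw [h1, h2, h3, h4]; omega

/-- induction for the class -/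
theorem Sg_ind {Θ : Fm} {v w : ℕ → Car} {i : ℕ} (h0 : Sg Θ (update v i (cst 0)) w)
    (hs : ∀ a, Sg Θ (update v i a) w → Sg Θ (update v i (cadd a (cst 1))) w) (a : Car) :
    Sg Θ (update v i a) w := by
  classical
  by_contra hna
  obtain ⟨k, hk1, hk2, hk3⟩ := exists_small v w Θ.bd a
  have hiff : ∀ x : Car, (Ev fun n => rep x n ≤ rep a n) →
      (Sg Θ (update v i x) w ↔ Ev fun n => St n (k + 1) Θ (update (rv v n) i (rep x n)) (rv w n)) := by
    intro x hx
    have hx' : Ev fun n => rep x n < gg n k := hx.mp2 hk3 fun n h1 h2 => lt_of_le_of_lt h1 h2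
    rw [Sg_iff_St (hk1.update i hx') hk2]
    simp only [rv_update]
  have hna' : Ev fun n => ∃ y, ¬ St n (k + 1) Θ (update (rv v n) i y) (rv w n) := by
    rw [hiff a (ev_of_forall fun _ => le_rfl), ← ev_not] at hna
    exact hna.mp fun n hn => ⟨_, hn⟩
  let f : ℕ → ℕ := fun n => if h : ∃ y, ¬ St n (k + 1) Θ (update (rv v n) i y) (rv w n) then Nat.find h else 0
  have hf1 : Ev fun n => ¬ St n (k + 1) Θ (update (rv v n) i (f n)) (rv w n) ∧
      ∀ y < f n, St n (k + 1) Θ (update (rv v n) i y) (rv w n) := by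
    refine hna'.mp fun n hn => ?_
    simp only [f, dif_pos hn]
    exact ⟨Nat.find_spec hn, fun y hy => not_not.1 (Nat.find_min hn hy)⟩
  have hfa : Ev fun n => f n ≤ rep a n := by
    rw [hiff a (ev_of_forall fun _ => le_rfl), ← ev_not] at hna
    refine hf1.mp2 hna fun n h1 h2 => ?_
    by_contra h3
    exact h2 (h1.2 _ (not_le.1 h3))
  have hfb := bound_of_lt hfa
  have hfb' : ∃ k, Ev fun n => f n - 1 < gg n k :=
    bound_of_lt (x := a) (hfa.mp fun n hn => (Nat.sub_le _ _).trans hn)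
  have hx1 : ¬ Sg Θ (update v i (mk f hfb)) w := by
    rw [hiff _ (hfa.mp2 (rep_mk hfb) fun n h1 h2 => by rw [h2]; exact h1), ← ev_not]
    exact hf1.mp2 (rep_mk hfb) fun n h1 h2 => by rw [h2]; exact h1.1
  have h0' : Ev fun n => St n (k + 1) Θ (update (rv v n) i 0) (rv w n) := by
    have := (hiff (cst 0) ((rep_cst 0).mp fun n hn => by rw [hn]; exact Nat.zero_le _)).1 h0
    exact this.mp2 (rep_cst 0) fun n h1 h2 => by rwa [h2] at h1
  have hpos : Ev fun n => 0 < f n := by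
    refine hf1.mp2 h0' fun n h1 h2 => Nat.pos_of_ne_zero fun h3 => ?_
    rw [h3] at h1
    exact h1.1 h2
  have hy : Sg Θ (update v i (mk (fun n => f n - 1) hfb')) w := by
    rw [hiff _ ((hfa.mp2 (rep_mk hfb') fun n h1 h2 => by rw [h2]; exact (Nat.sub_le _ _).trans h1))]
    refine (hf1.and hpos).mp2 (rep_mk hfb') ?_
    rintro n ⟨h1, h2⟩ h3
    rw [h3]
    exact h1.2 _ (Nat.sub_lt h2 Nat.one_pos)
  have := hs _ hy
  rw [cadd_comm_mk hfb hfb' hpos] at this
  exact hx1 this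

/-- choose defining data for an assignment of set variables -/
theorem exists_desc {V : ℕ → Set Car} (hV : MM.SetAsg V) :
    ∃ (F : ℕ → Fm × Fm) (w : ℕ → Car), ∀ i, Desc (F i) (w i) (V i) := by
  have : ∀ i, ∃ (F : Fm × Fm) (w : Car), Desc F w (V i) := fun i => hV i
  choose F w h using this
  exact ⟨F, w, h⟩

/-- Sigma-1 formulas define relations in the class -/
theorem sigma1_Sg (F : ℕ → Fm × Fm) {φ : Fm} (hφ : IsSigma 1 φ) : ∃ P : Fm,
    ∀ (v w : ℕ → Car) (V : ℕ → Set Car), (∀ i, Desc (F i) (w i) (V i)) →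
      (Sat MM v V φ ↔ Sg P v w) := by
  obtain ⟨j, ψ, rfl, hψ⟩ := hφ
  obtain ⟨P, N, h⟩ := compile F (show IsDelta0 ψ from hψ)
  refine ⟨exP P j, fun v w V hV => ?_⟩
  rw [sat_ex, Sg_exP]
  exact exists_congr fun y => (h (update v j y) w V hV).1

/-- Pi-1 formulas define complements of relations in the class -/
theorem pi1_Sg (F : ℕ → Fm × Fm) {φ : Fm} (hφ : IsPi 1 φ) : ∃ P : Fm,
    ∀ (v w : ℕ → Car) (V : ℕ → Set Car), (∀ i, Desc (F i) (w i) (V i)) →
      (¬ Sat MM v V φ ↔ Sg P v w) := by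
  obtain ⟨j, ψ, rfl, hψ⟩ := hφ
  obtain ⟨P, N, h⟩ := compile F (show IsDelta0 ψ from hψ)
  refine ⟨exP N j, fun v w V hV => ?_⟩
  rw [sat_all, Sg_exP, not_forall]
  exact exists_congr fun y => (h (update v j y) w V hV).2

theorem MM_induction : ISigma 1 MM := by
  intro φ hφ i v V hV h0 hs
  obtain ⟨F, w, hFw⟩ := exists_desc hV
  obtain ⟨P, hP⟩ := sigma1_Sg F hφ
  have key : ∀ a : Car, Sat MM (update v i a) V φ ↔ Sg P (update v i a) w := fun a => hP _ w V hFw
  intro a
  rw [key]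
  refine Sg_ind ((key _).1 h0) (fun b hb => (key _).1 (hs b ((key b).2 hb))) a

/-! conversion to a single parameter -/

/-- binding the variables `1..k` to prescribed values -/
def bnd (D : ℕ → Fm) : ℕ → Fm → Fm
  | 0, Θ => Θ
  | k + 1, Θ => bnd D k (.ex (k + 1) (.and (D (k + 1)) Θ))

theorem satN_bnd {D : ℕ → Fm} {val : ℕ → ℕ → ℕ → ℕ} {N f1 f2 : ℕ} (h1 : N < f1) (h2 : N < f2)
    (hD : ∀ p, 1 ≤ p → p ≤ N → ∀ ρ, satN ρ (D p) ↔ ρ p = val p (ρ f1) (ρ f2)) :
    ∀ k ≤ N, ∀ Θ ρ, satN ρ (bnd D k Θ) ↔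
      satN (fun p => if 1 ≤ p ∧ p ≤ k then val p (ρ f1) (ρ f2) else ρ p) Θ := by
  intro k
  induction k with
  | zero =>
    intro _ Θ ρ
    have : (fun p => if 1 ≤ p ∧ p ≤ 0 then val p (ρ f1) (ρ f2) else ρ p) = ρ := by
      funext p; rw [if_neg (by omega)]
    rw [this]; rfl
  | succ k ih =>
    intro hk Θ ρ
    rw [bnd, ih (by omega), satN_ex]
    set ρ' : ℕ → ℕ := fun p => if 1 ≤ p ∧ p ≤ k then val p (ρ f1) (ρ f2) else ρ p with hρ'
    have hf1 : ∀ y, update ρ' (k + 1) y f1 = ρ f1 := by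
      intro y; rw [update_of_ne (by omega), hρ']; simp only; rw [if_neg (by omega)]
    have hf2 : ∀ y, update ρ' (k + 1) y f2 = ρ f2 := by
      intro y; rw [update_of_ne (by omega), hρ']; simp only; rw [if_neg (by omega)]
    have heq : update ρ' (k + 1) (val (k + 1) (ρ f1) (ρ f2)) =
        (fun p => if 1 ≤ p ∧ p ≤ k + 1 then val p (ρ f1) (ρ f2) else ρ p) := by
      funext p
      by_cases hp : p = k + 1
      · subst hp; rw [update_self, if_pos ⟨by omega, le_rfl⟩]
      · rw [update_of_ne hp, hρ']; simp only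
        by_cases hp2 : 1 ≤ p ∧ p ≤ k
        · rw [if_pos hp2, if_pos ⟨hp2.1, by omega⟩]
        · rw [if_neg hp2, if_neg (by omega)]
    constructor
    · rintro ⟨y, hy⟩
      rw [satN_and, hD (k + 1) (by omega) hk, hf1, hf2, update_self] at hy
      rw [← heq, ← hy.1]; exact hy.2
    · intro h
      refine ⟨val (k + 1) (ρ f1) (ρ f2), ?_⟩
      rw [satN_and, hD (k + 1) (by omega) hk, hf1, hf2, update_self, heq]
      exact ⟨rfl, h⟩

/-- the formula with all variables bound to values computed from the variables `1` and `2` -/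
def conv (D : ℕ → Fm) (N : ℕ) (Θ : Fm) : Fm :=
  .ex (N + 1) (.and (.eq (.var (N + 1)) (.var 1)) (.ex (N + 2) (.and (.eq (.var (N + 2)) (.var 2))
    (bnd D N Θ))))

theorem satN_conv {D : ℕ → Fm} {val : ℕ → ℕ → ℕ → ℕ} {N : ℕ} {Θ : Fm} (hN : 2 ≤ N) (hΘ : Θ.bd ≤ N)
    (hD : ∀ p, 1 ≤ p → p ≤ N → ∀ ρ, satN ρ (D p) ↔ ρ p = val p (ρ (N + 1)) (ρ (N + 2))) (z s x : ℕ) :
    satN (a3 z s x) (conv D N Θ) ↔ satN (fun p => if p = 0 then z else val p s x) Θ := by
  unfold conv
  rw [satN_ex]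
  have e0 : ∀ y, update (a3 z s x) (N + 1) y 1 = s := by
    intro y; rw [update_of_ne (by omega)]; rfl
  have e1 : ∀ y, update (a3 z s x) (N + 1) y (N + 1) = y := by
    intro y; rw [update_self]
  have e2 : ∀ y y', update (update (a3 z s x) (N + 1) y) (N + 2) y' 2 = x := by
    intro y y'; rw [update_of_ne (by omega), update_of_ne (by omega)]; rfl
  have e3 : ∀ y y', update (update (a3 z s x) (N + 1) y) (N + 2) y' (N + 2) = y' := by
    intro y y'; rw [update_self]
  have hfin : satN (update (update (a3 z s x) (N + 1) s) (N + 2) x) (bnd D N Θ) ↔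
      satN (fun p => if p = 0 then z else val p s x) Θ := by
    rw [satN_bnd (val := val) (f1 := N + 1) (f2 := N + 2) (Nat.lt_succ_self N) (by omega) hD N le_rfl]
    apply satN_congr
    intro p hp
    by_cases hp0 : p = 0
    · subst hp0
      rw [if_neg (by omega), if_pos rfl, update_of_ne (by omega), update_of_ne (by omega)]; rfl
    · rw [if_neg hp0, if_pos ⟨by omega, by omega⟩]
      rw [update_self, update_of_ne (by omega), update_self]
  constructor
  · rintro ⟨y, hy⟩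
    rw [satN_and, satN_eq, satN_ex] at hy
    obtain ⟨h1, y', h2⟩ := hy
    rw [satN_and, satN_eq] at h2
    simp only [Tm.val] at h1 h2
    rw [e0, e1] at h1
    rw [e2, e3] at h2
    obtain ⟨h3, h4⟩ := h2
    subst h1; subst h3
    exact hfin.1 h4
  · intro h
    refine ⟨s, ?_⟩
    rw [satN_and, satN_eq, satN_ex]
    refine ⟨by simp only [Tm.val]; rw [e0, e1], x, ?_⟩
    rw [satN_and, satN_eq]
    refine ⟨by simp only [Tm.val]; rw [e2, e3], hfin.2 h⟩

theorem bound_list (N : ℕ) (L : ℕ → List ℕ) (hlen : ∀ n, (L n).length = N)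
    (hb : ∃ k, Ev fun n => ∀ a ∈ L n, a < gg n k) : ∃ k, Ev fun n => cdN (L n) < gg n k := by
  obtain ⟨k, hk⟩ := hb
  refine ⟨k + 1, hk.mp2 (ev_ge N) fun n h1 h2 => ?_⟩
  refine gr_lt n k ((Gr_spec _).2.2.2 _ ⟨?_, h1⟩)
  rw [hlen]
  have h6 := (gg_strictMono n).monotone (Nat.zero_le k)
  rw [gg_zero] at h6
  have : 0 < 2 ^ n := by positivity
  omega

theorem single_param2 (Θ1 Θ2 : Fm) (v w : ℕ → Car) (i : ℕ) : ∃ (w' : Car) (G1 G2 : Fm), ∀ a : Car,
    (Sg Θ1 (update v i a) w ↔ SigF G1 a w') ∧ (Sg Θ2 (update v i a) w ↔ SigF G2 a w') := by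
  let N := max 2 (max Θ1.bd Θ2.bd)
  let L : ℕ → List ℕ := fun n => (List.range N).map fun p => asg 0 (rv v n) (rv w n) p
  have hb : ∃ k, Ev fun n => ∀ a ∈ L n, a < gg n k := by
    obtain ⟨k, hk1, hk2, -⟩ := exists_small v w N (cst 0)
    refine ⟨k, (ev_forall_lt _ hk1).mp2 (ev_forall_lt _ hk2) fun n h3 h4 => ?_⟩
    intro a ha
    simp only [L, List.mem_map, List.mem_range] at ha
    obtain ⟨p, hp, rfl⟩ := ha
    have hpos : 0 < gg n k := lt_of_le_of_lt (Nat.zero_le _) (lt_gg n k)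
    rcases pos_cases p with rfl | ⟨j, rfl⟩ | ⟨j, rfl⟩ | ⟨j, rfl⟩
    · exact hpos
    · rw [asg_one]; exact h3 j (by omega)
    · rw [asg_two]; exact h4 j (by omega)
    · rw [asg_three]; exact hpos
  have hbd := bound_list N L (fun n => by simp [L]) hb
  let val : ℕ → ℕ → ℕ → ℕ := fun p x s => if p = 3 * i + 1 then x else (dcN s).getD p 0
  let D : ℕ → Fm := fun p => if p = 3 * i + 1 then .eq (.var p) (.var (N + 1))
    else .mem (pairT (.var (N + 2)) (.var p)) (Nat.pair 7 p)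
  have hD : ∀ p, 1 ≤ p → p ≤ N → ∀ ρ, satN ρ (D p) ↔ ρ p = val p (ρ (N + 1)) (ρ (N + 2)) := by
    intro p _ _ ρ
    by_cases hp : p = 3 * i + 1
    · simp only [D, val, if_pos hp]; rw [satN_eq]; rfl
    · simp only [D, val, if_neg hp]; rw [satN_mem, val_pairT_NM]
      simp only [Tm.val]
      constructor
      · rintro ⟨s, y, h1, h2⟩
        obtain ⟨rfl, rfl⟩ := pr_inj h1
        exact h2
      · intro h; exact ⟨_, _, rfl, h⟩
  have hmain : ∀ Θ : Fm, Θ.bd ≤ N → ∀ a : Car, (Sg Θ (update v i a) w ↔ SigF (conv D N Θ) a (mk (fun n => cdN (L n)) hbd)) := by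
    intro Θ hΘ a
    unfold Sg SigF
    refine exists_congr fun m => ?_
    apply Ev.congr
    refine (rep_mk hbd).mp fun n hn => ?_
    rw [hn, satN_conv (val := val) (le_max_left _ _) hΘ hD]
    apply satN_congr
    intro p hp
    have hp' : p < N := lt_of_lt_of_le hp hΘ
    by_cases hp0 : p = 0
    · subst hp0; rw [if_pos rfl]; rfl
    · rw [if_neg hp0, rv_update, ← update_asg_one]
      by_cases hpi : p = 3 * i + 1
      · subst hpi; simp only [val, if_true]; rw [update_self]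
      · rw [update_of_ne hpi]
        simp only [val, if_neg hpi, dcN_cdN]
        simp only [L, List.getD_eq_getElem?_getD, List.getElem?_map]
        rw [List.getElem?_range hp']
        simp [asg, hp0]
  refine ⟨mk (fun n => cdN (L n)) hbd, conv D N Θ1, conv D N Θ2, fun a => ⟨hmain _ ?_ a, hmain _ ?_ a⟩⟩
  · exact le_trans (le_max_left _ _) (le_max_right _ _)
  · exact le_trans (le_max_right _ _) (le_max_right _ _)

theorem MM_comprehension : Delta1CA MM := by
  intro φ ψ hφ hψ i v V hV hiff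
  obtain ⟨F, w, hFw⟩ := exists_desc hV
  obtain ⟨P, hP⟩ := sigma1_Sg F hφ
  obtain ⟨Q, hQ⟩ := pi1_Sg F hψ
  obtain ⟨w', G1, G2, hG⟩ := single_param2 P Q v w i
  refine ⟨(G1, G2), w', fun x => ⟨?_, ?_⟩⟩
  · rw [Set.mem_ofPred_eq, hP _ w V hFw, (hG x).1]
  · rw [Set.mem_ofPred_eq, hiff x, hQ _ w V hFw, (hG x).2]

theorem MM_basic : Basic MM where
  succ_ne_zero := by
    intro a h
    rw [car_ext] at h
    have : Ev fun _ => False := by
      refine ((h.and (rep_cadd a (cst 1))).and (rep_cst 0)).mp2 (rep_cst 1) ?_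
      rintro n ⟨⟨h1, h2⟩, h3⟩ h4
      rw [h2, h3, h4] at h1; omega
    exact ev_const.1 this
  succ_inj := by
    intro a b h
    rw [car_ext] at h ⊢
    refine (h.and (rep_cadd a (cst 1))).mp2 (rep_cadd b (cst 1)) ?_
    rintro n ⟨h1, h2⟩ h3
    rw [h2, h3] at h1; omega
  add_zero := by
    intro a
    change cadd a (cst 0) = a
    rw [car_ext]
    exact (rep_cadd a (cst 0)).mp2 (rep_cst 0) fun n h1 h2 => by rw [h1, h2]; rfl
  add_succ := by
    intro a b
    change cadd a (cadd b (cst 1)) = cadd (cadd a b) (cst 1)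
    rw [car_ext]
    refine ((rep_cadd a (cadd b (cst 1))).and (rep_cadd b (cst 1))).mp2
      ((rep_cadd (cadd a b) (cst 1)).and (rep_cadd a b)) ?_
    rintro n ⟨h1, h2⟩ ⟨h3, h4⟩
    rw [h1, h2, h3, h4]; ring
  mul_zero := by
    intro a
    change cmul a (cst 0) = cst 0
    rw [car_ext]
    exact (rep_cmul a (cst 0)).mp2 (rep_cst 0) fun n h1 h2 => by rw [h1, h2, Nat.mul_zero]
  mul_succ := by
    intro a b
    change cmul a (cadd b (cst 1)) = cadd (cmul a b) a
    rw [car_ext]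
    refine ((rep_cmul a (cadd b (cst 1))).and ((rep_cadd b (cst 1)).and (rep_cst 1))).mp2
      ((rep_cadd (cmul a b) a).and (rep_cmul a b)) ?_
    rintro n ⟨h1, h2, h2'⟩ ⟨h3, h4⟩
    rw [h1, h2, h2', h3, h4]; ring
  not_lt_zero := by
    intro a h
    have : Ev fun _ => False := Ev.mp2 h (rep_cst 0) fun n h1 h2 => by
      rw [h2] at h1; exact Nat.not_lt_zero _ h1
    exact ev_const.1 this
  lt_succ := by
    intro a b
    change clt a (cadd b (cst 1)) ↔ clt a b ∨ a = b
    rw [car_ext, clt, clt, ← ev_or]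
    apply Ev.congr
    refine (rep_cadd b (cst 1)).mp2 (rep_cst 1) fun n h1 h2 => ?_
    rw [h1, h2]; omega

theorem MM_RCA0 : RCA0 MM := ⟨MM_basic, MM_induction, MM_comprehension⟩

theorem MM_collection : BSigma 2 MM := by
  intro φ hφ i j hij v V hV a hyp
  obtain ⟨l, ψ, rfl, hψ⟩ := hφ
  obtain ⟨F, w, hFw⟩ := exists_desc hV
  obtain ⟨P, hP⟩ := pi1_Sg F (show IsPi 1 ψ from hψ)
  -- the formula says: there is `u` outside the class relation `P`
  have key : ∀ (x y : Car), Sat MM (update (update v i x) j y) V (.ex l ψ) ↔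
      ∃ u : Car, ¬ Sg P (update (update (update v i x) j y) l u) w := by
    intro x y
    rw [sat_ex]
    refine exists_congr fun u => ?_
    rw [← hP _ w V hFw, not_not]
  by_contra hcon
  push Not at hcon
  obtain ⟨K, hK1, hK2, hK3⟩ := exists_small v w P.bd a
  -- bad elements at every stage
  have hbad : ∀ k : ℕ, ∃ x : Car, clt x a ∧ ∀ y : Car, clt y (gk k) → ∀ u : Car,
      Sg P (update (update (update v i x) j y) l u) w := by
    intro k
    obtain ⟨x, hx, hy⟩ := hcon (gk k)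
    refine ⟨x, hx, fun y hyk u => ?_⟩
    by_contra hn
    exact hy y hyk ((key x y).2 ⟨u, hn⟩)
  let Q : ℕ → ℕ → ℕ → Prop := fun k n x => x < rep a n ∧ ∀ k' ≤ k, ∀ y < gg n k', ∀ u < gg n k',
    St n (k' + K + 1) P (update (update (update (rv v n) i x) j y) l u) (rv w n)
  obtain ⟨f, hf⟩ := saturation Q (fun m n y h => ⟨h.1, fun k' hk' => h.2 k' (hk'.trans (Nat.le_succ m))⟩) (by
    intro k
    obtain ⟨x, hx, hxy⟩ := hbad k
    have h1 : ∀ k' < k + 1, Ev fun n => ∀ y < gg n k', ∀ u < gg n k',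
        St n (k' + K + 1) P (update (update (update (rv v n) i (rep x n)) j y) l u) (rv w n) := by
      intro k' hk'
      by_contra hcon2
      rw [← ev_not] at hcon2
      obtain ⟨g1, hg1⟩ := choose_seq (P := fun n y => y < gg n k' ∧ ∃ u < gg n k',
        ¬ St n (k' + K + 1) P (update (update (update (rv v n) i (rep x n)) j y) l u) (rv w n))
        (hcon2.mp fun n hn => by push Not at hn; obtain ⟨y, hy, u, hu, h⟩ := hn; exact ⟨y, hy, u, hu, h⟩)
      obtain ⟨g2, hg2⟩ := choose_seq (P := fun n u => u < gg n k' ∧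
        ¬ St n (k' + K + 1) P (update (update (update (rv v n) i (rep x n)) j (g1 n)) l u) (rv w n))
        (hg1.mp fun n hn => by obtain ⟨_, u, hu, h⟩ := hn; exact ⟨u, hu, h⟩)
      have b1 : ∃ k, Ev fun n => g1 n < gg n k := ⟨k', hg1.mp fun n hn => hn.1⟩
      have b2 : ∃ k, Ev fun n => g2 n < gg n k := ⟨k', hg2.mp fun n hn => hn.1⟩
      have hlt1 : clt (mk g1 b1) (gk k) := by
        refine (hg1.and (rep_mk b1)).mp2 (rep_gk k) ?_
        rintro n ⟨h1, h2⟩ h3
        rw [h2, h3]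
        exact lt_of_lt_of_le h1.1 ((gg_strictMono n).monotone (Nat.lt_succ_iff.1 hk'))
      have hSg := hxy (mk g1 b1) hlt1 (mk g2 b2)
      have s1 : Ev fun n => rep x n < gg n (k' + K) := by
        refine Ev.mp2 hx (bound_mono (Nat.le_add_left K k') hK3) fun n h1 h2 => h1.trans h2
      have s2 : Ev fun n => rep (mk g1 b1) n < gg n (k' + K) := by
        refine (hg1.mp2 (rep_mk b1) fun n h1 h2 => ?_)
        rw [h2]; exact lt_of_lt_of_le h1.1 ((gg_strictMono n).monotone (Nat.le_add_right _ _))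
      have s3 : Ev fun n => rep (mk g2 b2) n < gg n (k' + K) := by
        refine (hg2.mp2 (rep_mk b2) fun n h1 h2 => ?_)
        rw [h2]; exact lt_of_lt_of_le h1.1 ((gg_strictMono n).monotone (Nat.le_add_right _ _))
      have hSt := St_of_Sg (k := k' + K) ((((hK1.mono le_rfl (Nat.le_add_left K k')).update i s1).update j s2).update l s3)
        (hK2.mono le_rfl (Nat.le_add_left K k')) hSg
      have : Ev fun _ => False := by
        refine ((hSt.and hg2).and (rep_mk b1)).mp2 (rep_mk b2) ?_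
        rintro n ⟨⟨h1, h2⟩, h3⟩ h4
        rw [rv_update, rv_update, rv_update, h3, h4] at h1
        exact h2.2 h1
      exact ev_const.1 this
    refine Ev.mp2 hx (ev_forall_lt (k + 1) h1) fun n h2 h3 => ⟨rep x n, h2, fun k' hk' => h3 k' (by omega)⟩)
  have hfa : Ev fun n => f n < rep a n := (hf 0).mp fun n hn => hn.1
  have hfb : ∃ k, Ev fun n => f n < gg n k := bound_of_lt (hfa.mp fun n hn => hn.le)
  have hxa : clt (mk f hfb) a := hfa.mp2 (rep_mk hfb) fun n h1 h2 => by rw [h2]; exact h1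
  obtain ⟨y, hy⟩ := hyp (mk f hfb) hxa
  obtain ⟨u, hu⟩ := (key _ _).1 hy
  obtain ⟨k1, hk1⟩ := rep_bound y
  obtain ⟨k2, hk2⟩ := rep_bound u
  apply hu
  set k := max k1 k2
  apply Sg_of_St (k := k + K + 1)
  refine ((hf k).and (rep_mk hfb)).mp2 ((bound_mono (le_max_left k1 k2) hk1).and (bound_mono (le_max_right k1 k2) hk2)) ?_
  rintro n ⟨h1, h2⟩ ⟨h3, h4⟩
  rw [rv_update, rv_update, rv_update, h2]
  exact h1.2 k le_rfl _ h3 _ h4

end Pool.Agent.Helper317.SOA
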