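import Pool.Agent.Helper317.Fin

/-!
The back-and-forth argument and the final theorem.
-/

namespace Pool.Agent.Helper317.SOA

open Function Filter

/-- two sequences of assignments satisfy the same formulas -/
def TEg (α β : ℕ → ℕ → ℕ) : Prop := ∀ Φ : Fm, (Ev fun n => satN (α n) Φ) ↔ Ev fun n => satN (β n) Φ

theorem TEg.symm {α β : ℕ → ℕ → ℕ} (h : TEg α β) : TEg β α := fun Φ => (h Φ).symm

/-- conjunction of the first formulas or their negations -/
noncomputable def Bf (T : ℕ → Prop) : ℕ → Fm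
  | 0 => open Classical in if T 0 then en 0 else .neg (en 0)
  | m + 1 => .and (open Classical in if T (m + 1) then en (m + 1) else .neg (en (m + 1))) (Bf T m)

theorem Bf_self {γ : ℕ → ℕ → ℕ} (m : ℕ) :
    Ev fun n => satN (γ n) (Bf (fun e => Ev fun n => satN (γ n) (en e)) m) := by
  have hone : ∀ e, Ev fun n => satN (γ n) (open Classical in
      if (Ev fun n => satN (γ n) (en e)) then en e else .neg (en e)) := by
    intro e
    by_cases h : Ev fun n => satN (γ n) (en e)
    · rw [if_pos h]; exact h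
    · rw [if_neg h]; exact ev_not.2 h
  induction m with
  | zero => exact hone 0
  | succ m ih => exact (hone (m + 1)).mp2 ih fun n h1 h2 => satN_and.2 ⟨h1, h2⟩

theorem Bf_mono {T : ℕ → Prop} {m : ℕ} {ρ : ℕ → ℕ} (h : satN ρ (Bf T (m + 1))) : satN ρ (Bf T m) :=
  (satN_and.1 h).2

theorem Bf_mem {T : ℕ → Prop} {m : ℕ} {ρ : ℕ → ℕ} (h : satN ρ (Bf T m)) :
    (T m → satN ρ (en m)) ∧ (¬ T m → ¬ satN ρ (en m)) := by
  cases m with
  | zero =>
    unfold Bf at h
    constructor
    · intro hT; rwa [if_pos hT] at h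
    · intro hT; rw [if_neg hT] at h; exact h
  | succ m =>
    unfold Bf at h
    have h := (satN_and.1 h).1
    constructor
    · intro hT; rwa [if_pos hT] at h
    · intro hT; rw [if_neg hT] at h; exact h

theorem TEg_of_Bf {α β : ℕ → ℕ → ℕ}
    (h : ∀ m, Ev fun n => satN (β n) (Bf (fun e => Ev fun n => satN (α n) (en e)) m)) : TEg α β := by
  intro Φ
  obtain ⟨e, rfl⟩ := en_surj Φ
  constructor
  · intro hT
    exact (h e).mp fun n hn => (Bf_mem hn).1 hT
  · intro hβ
    by_contra hT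
    have : Ev fun _ => False := (h e).mp2 hβ fun n h1 h2 => (Bf_mem h1).2 hT h2
    exact ev_const.1 this

/-- one step of the extension -/
theorem TEg_ext {α β : ℕ → ℕ → ℕ} (h : TEg α β) (p : ℕ) (b : ℕ → ℕ) :
    ∃ b' : ℕ → ℕ, TEg (fun n => update (α n) p (b n)) (fun n => update (β n) p (b' n)) := by
  let T : ℕ → Prop := fun e => Ev fun n => satN (update (α n) p (b n)) (en e)
  obtain ⟨y, hy⟩ := saturation (fun m n y => satN (update (β n) p y) (Bf T m))
    (fun m n y h => Bf_mono h) (fun m => by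
      have h1 : Ev fun n => satN (α n) (.ex p (Bf T m)) :=
        (Bf_self (γ := fun n => update (α n) p (b n)) m).mp fun n hn => satN_ex.2 ⟨b n, hn⟩
      exact ((h _).1 h1).mp fun n hn => satN_ex.1 hn)
  exact ⟨y, TEg_of_Bf hy⟩

/-- membership of bounds is part of the type -/
theorem TEg_bound {α β : ℕ → ℕ → ℕ} (h : TEg α β) {c : ℕ → ℕ} (hc : ∀ k, Ev fun n => k ≤ c n)
    (hα : ∀ n, α n 0 = zz n (c n)) (hβ : ∀ n, β n 0 = zz n (c n)) (p : ℕ)
    (hb : ∃ k, Ev fun n => α n p < gg n k) : ∃ k, Ev fun n => β n p < gg n k := by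
  obtain ⟨k, hk⟩ := hb
  have key : ∀ (γ : ℕ → ℕ → ℕ), (∀ n, γ n 0 = zz n (c n)) → (Ev fun n =>
      (satN (γ n) (.mem (pairT (.var p) (.var 0)) (Nat.pair 4 k)) ↔ γ n p < gg n k)) := by
    intro γ hγ
    refine (hc k).mp fun n hn => ?_
    rw [satN_mem, val_pairT_NM]
    have e : ((dcL (zz n (c n))).getD k []).length = gg n k := by
      rw [zz, dcL_cdL, Hs_getD n hn]; rfl
    constructor
    · rintro ⟨x, ζ, h1, h2⟩
      obtain ⟨h3, h4⟩ := pr_inj h1
      have h3' : γ n p = x := h3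
      have h4' : γ n 0 = ζ := h4
      rw [← h3', ← h4', hγ, e] at h2
      exact h2
    · intro h
      exact ⟨γ n p, γ n 0, rfl, by rw [hγ, e]; exact h⟩
  refine ⟨k, ?_⟩
  rw [← Ev.congr (key β hβ), ← h, Ev.congr (key α hα)]
  exact hk

/-- replacing `z` by a piece of the `k`-th condition -/
def upk (k : ℕ) (Θ : Fm) : Fm :=
  .ex (3 * Θ.bd + 3) (.and (.eq (.var (3 * Θ.bd + 3)) (.var 0))
    (.ex 0 (.and (.mem (pairT (.var 0) (.var (3 * Θ.bd + 3))) (Nat.pair 5 k)) Θ)))

theorem satN_upk {Θ : Fm} {n k c : ℕ} (hk : k ≤ c) {a b : ℕ → ℕ} :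
    satN (asg (zz n c) a b) (upk k Θ) ↔ St n k Θ a b := by
  have e : (dcL (zz n c)).getD k [] = qq n k := by rw [zz, dcL_cdL, Hs_getD n hk]
  unfold upk
  rw [satN_ex]
  constructor
  · rintro ⟨y, hy⟩
    rw [satN_and, satN_eq, satN_ex] at hy
    obtain ⟨h1, z', h2⟩ := hy
    rw [satN_and, satN_mem, val_pairT_NM] at h2
    simp only [Tm.val, update_self, update_of_ne (show (3 * Θ.bd + 3) ≠ 0 by omega),
      update_of_ne (show (0 : ℕ) ≠ 3 * Θ.bd + 3 by omega)] at h1 h2
    obtain ⟨⟨z1, z2, m, h3, h4⟩, h5⟩ := h2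
    obtain ⟨rfl, rfl⟩ := pr_inj h3
    have h6 : y = zz n c := h1
    rw [h6, e] at h4
    refine ⟨min m (gg n k), min_le_right _ _, ?_⟩
    have h7 : zi n (min m (gg n k)) = z' := by
      rw [h4, zi, Zr_eq n (min_le_right _ _)]
      congr 1
      rcases le_total m (gg n k) with h' | h'
      · rw [min_eq_left h']
      · rw [min_eq_right h', List.take_of_length_le (show (qq n k).length ≤ gg n k from le_rfl),
          List.take_of_length_le h']
    rw [h7]
    refine (satN_congr Θ fun p hp => ?_).1 h5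
    by_cases hp0 : p = 0
    · subst hp0; rw [update_self]; rfl
    · rw [update_of_ne hp0, update_of_ne (by omega)]; simp [asg, hp0]
  · rintro ⟨m, hm, hs⟩
    refine ⟨zz n c, ?_⟩
    rw [satN_and, satN_eq, satN_ex]
    refine ⟨?_, cd ((qq n k).take m), ?_⟩
    · simp only [Tm.val, update_self, update_of_ne (show (0 : ℕ) ≠ 3 * Θ.bd + 3 by omega)]; rfl
    · rw [satN_and, satN_mem, val_pairT_NM]
      refine ⟨⟨_, zz n c, m, ?_, by rw [e]⟩, ?_⟩
      · simp only [Tm.val, update_self, update_of_ne (show (3 * Θ.bd + 3) ≠ 0 by omega)]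
      · refine (satN_congr Θ fun p hp => ?_).2 hs
        by_cases hp0 : p = 0
        · subst hp0; rw [update_self, zi, Zr_eq n hm]; rfl
        · rw [update_of_ne hp0, update_of_ne (by omega)]; simp [asg, hp0]

/-- equality of types of assignments over the history `c` -/
def TE (c : ℕ → ℕ) (v w v' w' : ℕ → Car) : Prop :=
  TEg (fun n => asg (zz n (c n)) (rv v n) (rv w n)) (fun n => asg (zz n (c n)) (rv v' n) (rv w' n))

theorem TE.symm {c : ℕ → ℕ} {v w v' w' : ℕ → Car} (h : TE c v w v' w') : TE c v' w' v w := TEg.symm h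

theorem Sg_iff_upk {c : ℕ → ℕ} (hc : ∀ k, Ev fun n => k ≤ c n) {Θ : Fm} {v w : ℕ → Car} :
    Sg Θ v w ↔ ∃ k, Ev fun n => satN (asg (zz n (c n)) (rv v n) (rv w n)) (upk k Θ) := by
  constructor
  · rintro ⟨m, hm⟩
    obtain ⟨k, hk⟩ := rep_bound m
    refine ⟨k, (hm.and hk).mp2 (hc k) ?_⟩
    rintro n ⟨h1, h2⟩ h3
    rw [satN_upk h3]
    exact ⟨_, h2.le, h1⟩
  · rintro ⟨k, hk⟩
    exact Sg_of_St (k := k) (hk.mp2 (hc k) fun n h1 h2 => (satN_upk h2).1 h1)

theorem Sg_TE {c : ℕ → ℕ} (hc : ∀ k, Ev fun n => k ≤ c n) {Θ : Fm} {v w v' w' : ℕ → Car}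
    (h : TE c v w v' w') : Sg Θ v w ↔ Sg Θ v' w' := by
  rw [Sg_iff_upk hc, Sg_iff_upk hc]
  exact exists_congr fun k => h _

theorem TE_ext_v {c : ℕ → ℕ} (hc : ∀ k, Ev fun n => k ≤ c n) {v w v' w' : ℕ → Car}
    (h : TE c v w v' w') (i : ℕ) (b : Car) : ∃ b' : Car, TE c (update v i b) w (update v' i b') w' := by
  obtain ⟨b', hb'⟩ := TEg_ext h (3 * i + 1) (rep b)
  have hbd : ∃ k, Ev fun n => b' n < gg n k := by
    obtain ⟨k, hk⟩ := TEg_bound hb' hc (fun n => by rw [update_of_ne (by omega)]; rfl)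
      (fun n => by rw [update_of_ne (by omega)]; rfl) (3 * i + 1) (by
        obtain ⟨k, hk⟩ := rep_bound b
        exact ⟨k, hk.mp fun n hn => by rw [update_self]; exact hn⟩)
    exact ⟨k, hk.mp fun n hn => by rwa [update_self] at hn⟩
  refine ⟨mk b' hbd, fun Φ => ?_⟩
  have h1 := hb' Φ
  simp only [update_asg_one] at h1
  simp only [rv_update]
  rw [h1]
  apply Ev.congr
  exact (rep_mk hbd).mp fun n hn => by rw [hn]

theorem TE_ext_w {c : ℕ → ℕ} (hc : ∀ k, Ev fun n => k ≤ c n) {v w v' w' : ℕ → Car}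
    (h : TE c v w v' w') (i : ℕ) (b : Car) : ∃ b' : Car, TE c v (update w i b) v' (update w' i b') := by
  obtain ⟨b', hb'⟩ := TEg_ext h (3 * i + 2) (rep b)
  have hbd : ∃ k, Ev fun n => b' n < gg n k := by
    obtain ⟨k, hk⟩ := TEg_bound hb' hc (fun n => by rw [update_of_ne (by omega)]; rfl)
      (fun n => by rw [update_of_ne (by omega)]; rfl) (3 * i + 2) (by
        obtain ⟨k, hk⟩ := rep_bound b
        exact ⟨k, hk.mp fun n hn => by rw [update_self]; exact hn⟩)
    exact ⟨k, hk.mp fun n hn => by rwa [update_self] at hn⟩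
  refine ⟨mk b' hbd, fun Φ => ?_⟩
  have h1 := hb' Φ
  simp only [update_asg_two] at h1
  simp only [rv_update]
  rw [h1]
  apply Ev.congr
  exact (rep_mk hbd).mp fun n hn => by rw [hn]

/-- back and forth -/
theorem BF {c : ℕ → ℕ} (hc : ∀ k, Ev fun n => k ≤ c n) (φ : Fm) :
    ∀ (v w v' w' : ℕ → Car) (F : ℕ → Fm × Fm) (V V' : ℕ → Set Car), TE c v w v' w' →
      (∀ i, Desc (F i) (w i) (V i)) → (∀ i, Desc (F i) (w' i) (V' i)) →
      (Sat MM v V φ ↔ Sat MM v' V' φ) := by
  induction φ with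
  | eq s t =>
    intro v w v' w' F V V' h hV hV'
    have key : ∀ v w : ℕ → Car, (s.val MM v = t.val MM v) ↔
        Ev fun n => satN (asg (zz n (c n)) (rv v n) (rv w n)) (.eq (s.ren r1) (t.ren r1)) := by
      intro v w
      rw [show (s.val MM v = t.val MM v ↔ _) from car_ext]
      apply Ev.congr
      refine (rep_val s v).mp2 (rep_val t v) fun n h1 h2 => ?_
      rw [h1, h2, satN_eq, val_r1, val_r1]
    rw [sat_eq, sat_eq, key v w, key v' w']
    exact h _
  | lt s t =>
    intro v w v' w' F V V' h hV hV'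
    have key : ∀ v w : ℕ → Car, clt (s.val MM v) (t.val MM v) ↔
        Ev fun n => satN (asg (zz n (c n)) (rv v n) (rv w n)) (.lt (s.ren r1) (t.ren r1)) := by
      intro v w
      unfold clt
      apply Ev.congr
      refine (rep_val s v).mp2 (rep_val t v) fun n h1 h2 => ?_
      rw [h1, h2, satN_lt, val_r1, val_r1]
    rw [sat_lt, sat_lt]
    exact (key v w).trans ((h _).trans (key v' w').symm)
  | mem t i =>
    intro v w v' w' F V V' h hV hV'
    rw [sat_mem, sat_mem]
    exact ((hV i _).1.trans SigF_iff_Sg).trans ((Sg_TE hc h).trans ((hV' i _).1.trans SigF_iff_Sg).symm)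
  | neg φ ih =>
    intro v w v' w' F V V' h hV hV'
    rw [sat_neg, sat_neg, ih v w v' w' F V V' h hV hV']
  | and φ ψ ih1 ih2 =>
    intro v w v' w' F V V' h hV hV'
    rw [sat_and, sat_and, ih1 v w v' w' F V V' h hV hV', ih2 v w v' w' F V V' h hV hV']
  | all i φ ih =>
    intro v w v' w' F V V' h hV hV'
    rw [sat_all, sat_all]
    constructor
    · intro H b'
      obtain ⟨b, hb⟩ := TE_ext_v hc h.symm i b'
      exact (ih _ _ _ _ F V V' hb.symm hV hV').1 (H b)
    · intro H b
      obtain ⟨b', hb'⟩ := TE_ext_v hc h i b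
      exact (ih _ _ _ _ F V V' hb' hV hV').2 (H b')
  | allS i φ ih =>
    -- one direction, stated symmetrically
    have one : ∀ (v w v' w' : ℕ → Car) (F : ℕ → Fm × Fm) (V V' : ℕ → Set Car), TE c v w v' w' →
      (∀ i, Desc (F i) (w i) (V i)) → (∀ i, Desc (F i) (w' i) (V' i)) →
      (∀ A ∈ MM.sets, Sat MM v (update V i A) φ) → (∀ A ∈ MM.sets, Sat MM v' (update V' i A) φ) := by
      intro v w v' w' F V V' h hV hV' H A' hA'
      obtain ⟨G, u', hu'⟩ := hA'
      obtain ⟨u, hu⟩ := TE_ext_w hc h.symm i u'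
      -- the set on the other side
      have hdesc : Desc G u {x | SigF G.1 x u} := by
        intro x
        refine ⟨Iff.rfl, ?_⟩
        obtain ⟨x', hx'⟩ := TE_ext_v hc hu.symm 0 x
        have e : ∀ (H : Fm), SigF H x u ↔ SigF H x' u' := by
          intro H
          have h1 := Sg_TE hc (Θ := sub H (.var 0) i) hx'
          rw [← SigF_iff_Sg, ← SigF_iff_Sg] at h1
          simp only [Tm.val, update_self] at h1
          exact h1
        rw [Set.mem_ofPred_eq, e, e]
        rw [← (hu' x').1]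
        exact (hu' x').2
      have hd1 : ∀ j, Desc (update F i G j) (update w i u j) (update V i {x | SigF G.1 x u} j) := by
        intro j
        by_cases hj : j = i
        · subst hj; simp only [update_self]; exact hdesc
        · simp only [update_of_ne hj]; exact hV j
      have hd2 : ∀ j, Desc (update F i G j) (update w' i u' j) (update V' i A' j) := by
        intro j
        by_cases hj : j = i
        · subst hj; simp only [update_self]; exact hu'
        · simp only [update_of_ne hj]; exact hV' j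
      exact (ih _ _ _ _ (update F i G) _ _ hu.symm hd1 hd2).1 (H _ ⟨G, u, hdesc⟩)
    intro v w v' w' F V V' h hV hV'
    rw [sat_allS, sat_allS]
    exact ⟨one v w v' w' F V V' h hV hV', one v' w' v w F V' V h.symm hV' hV⟩

end Pool.Agent.Helper317.SOA
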