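import Pool.Agent.Helper317.SOA

/-!
Basic syntactic lemmas: derived connectives, supports, renaming, countability.
-/

namespace Pool.Agent.Helper317.SOA

open Function

section sem
variable {M : Model} {v v' : ℕ → M.Num} {V V' : ℕ → Set M.Num}

@[simp] theorem sat_eq {s t : Tm} : Sat M v V (.eq s t) ↔ s.val M v = t.val M v := Iff.rfl
@[simp] theorem sat_lt {s t : Tm} : Sat M v V (.lt s t) ↔ M.lt (s.val M v) (t.val M v) := Iff.rfl
@[simp] theorem sat_mem {t : Tm} {i : ℕ} : Sat M v V (.mem t i) ↔ t.val M v ∈ V i := Iff.rfl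
@[simp] theorem sat_neg {φ : Fm} : Sat M v V (.neg φ) ↔ ¬ Sat M v V φ := Iff.rfl
@[simp] theorem sat_and {φ ψ : Fm} : Sat M v V (.and φ ψ) ↔ (Sat M v V φ ∧ Sat M v V ψ) := Iff.rfl
@[simp] theorem sat_all {i : ℕ} {φ : Fm} :
    Sat M v V (.all i φ) ↔ ∀ a : M.Num, Sat M (update v i a) V φ := Iff.rfl
@[simp] theorem sat_allS {i : ℕ} {φ : Fm} :
    Sat M v V (.allS i φ) ↔ ∀ A ∈ M.sets, Sat M v (update V i A) φ := Iff.rfl
@[simp] theorem sat_imp {φ ψ : Fm} : Sat M v V (.imp φ ψ) ↔ (Sat M v V φ → Sat M v V ψ) := by
  simp only [Fm.imp, sat_neg, sat_and]; tauto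
@[simp] theorem sat_ex {i : ℕ} {φ : Fm} :
    Sat M v V (.ex i φ) ↔ ∃ a : M.Num, Sat M (update v i a) V φ := by
  simp only [Fm.ex, sat_neg, sat_all]; push Not; rfl
end sem

/-- all number variables of the term are below this bound -/
def Tm.bd : Tm → ℕ
  | .var i => i + 1
  | .zero => 0
  | .one => 0
  | .add s t => max s.bd t.bd
  | .mul s t => max s.bd t.bd

/-- all number variables (free or bound) are below this bound -/
def Fm.bd : Fm → ℕ
  | .eq s t => max s.bd t.bd
  | .lt s t => max s.bd t.bd
  | .mem t _ => t.bd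
  | .neg φ => φ.bd
  | .and φ ψ => max φ.bd ψ.bd
  | .all i φ => max (i + 1) φ.bd
  | .allS _ φ => φ.bd

/-- all set variables are below this bound -/
def Fm.bdS : Fm → ℕ
  | .eq _ _ => 0
  | .lt _ _ => 0
  | .mem _ i => i + 1
  | .neg φ => φ.bdS
  | .and φ ψ => max φ.bdS ψ.bdS
  | .all _ φ => φ.bdS
  | .allS i φ => max (i + 1) φ.bdS

theorem val_congr {M : Model} {v v' : ℕ → M.Num} (t : Tm) (h : ∀ i < t.bd, v i = v' i) :
    t.val M v = t.val M v' := by
  induction t with
  | var i => exact h i (by simp [Tm.bd])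
  | zero => rfl
  | one => rfl
  | add s t ihs iht =>
    simp only [Tm.val]
    rw [ihs fun i hi => h i (lt_of_lt_of_le hi (le_max_left _ _)),
      iht fun i hi => h i (lt_of_lt_of_le hi (le_max_right _ _))]
  | mul s t ihs iht =>
    simp only [Tm.val]
    rw [ihs fun i hi => h i (lt_of_lt_of_le hi (le_max_left _ _)),
      iht fun i hi => h i (lt_of_lt_of_le hi (le_max_right _ _))]

theorem sat_congr {M : Model} (φ : Fm) : ∀ {v v' : ℕ → M.Num} {V V' : ℕ → Set M.Num},
    (∀ i < φ.bd, v i = v' i) → (∀ i < φ.bdS, V i = V' i) → (Sat M v V φ ↔ Sat M v' V' φ) := by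
  induction φ with
  | eq s t =>
    intro v v' V V' h _
    simp only [sat_eq]
    rw [val_congr s fun i hi => h i (lt_of_lt_of_le hi (le_max_left _ _)),
      val_congr t fun i hi => h i (lt_of_lt_of_le hi (le_max_right _ _))]
  | lt s t =>
    intro v v' V V' h _
    simp only [sat_lt]
    rw [val_congr s fun i hi => h i (lt_of_lt_of_le hi (le_max_left _ _)),
      val_congr t fun i hi => h i (lt_of_lt_of_le hi (le_max_right _ _))]
  | mem t i =>
    intro v v' V V' h hS
    simp only [sat_mem]
    rw [val_congr t h, hS i (by simp [Fm.bdS])]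
  | neg φ ih =>
    intro v v' V V' h hS
    simp only [sat_neg]
    rw [ih h hS]
  | and φ ψ ih1 ih2 =>
    intro v v' V V' h hS
    simp only [sat_and]
    rw [ih1 (fun i hi => h i (lt_of_lt_of_le hi (le_max_left _ _)))
        (fun i hi => hS i (lt_of_lt_of_le hi (le_max_left _ _))),
      ih2 (fun i hi => h i (lt_of_lt_of_le hi (le_max_right _ _)))
        (fun i hi => hS i (lt_of_lt_of_le hi (le_max_right _ _)))]
  | all i φ ih =>
    intro v v' V V' h hS
    simp only [sat_all]
    refine forall_congr' fun a => ih (fun j hj => ?_) hS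
    by_cases hji : j = i
    · subst hji; simp
    · simp only [update_of_ne hji]
      exact h j (lt_of_lt_of_le hj (le_max_right _ _))
  | allS i φ ih =>
    intro v v' V V' h hS
    simp only [sat_allS]
    refine forall_congr' fun a => forall_congr' fun _ => ih h (fun j hj => ?_)
    by_cases hji : j = i
    · subst hji; simp
    · simp only [update_of_ne hji]
      exact hS j (lt_of_lt_of_le hj (le_max_right _ _))

/-- renaming number variables -/
def Tm.ren (f : ℕ → ℕ) : Tm → Tm
  | .var i => .var (f i)
  | .zero => .zero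
  | .one => .one
  | .add s t => .add (s.ren f) (t.ren f)
  | .mul s t => .mul (s.ren f) (t.ren f)

/-- renaming number variables (meaningful for injective `f`) -/
def Fm.ren (f : ℕ → ℕ) : Fm → Fm
  | .eq s t => .eq (s.ren f) (t.ren f)
  | .lt s t => .lt (s.ren f) (t.ren f)
  | .mem t i => .mem (t.ren f) i
  | .neg φ => .neg (φ.ren f)
  | .and φ ψ => .and (φ.ren f) (ψ.ren f)
  | .all i φ => .all (f i) (φ.ren f)
  | .allS i φ => .allS i (φ.ren f)

theorem val_ren {M : Model} (f : ℕ → ℕ) (v : ℕ → M.Num) (t : Tm) :
    (t.ren f).val M v = t.val M (v ∘ f) := by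
  induction t with
  | var i => rfl
  | zero => rfl
  | one => rfl
  | add s t ihs iht => simp only [Tm.ren, Tm.val, ihs, iht]
  | mul s t ihs iht => simp only [Tm.ren, Tm.val, ihs, iht]

theorem update_comp_inj {α : Type*} {f : ℕ → ℕ} (hf : Injective f) (v : ℕ → α) (i : ℕ) (a : α) :
    (update v (f i) a) ∘ f = update (v ∘ f) i a := by
  funext j
  by_cases h : j = i
  · subst h; simp
  · have : f j ≠ f i := fun h' => h (hf h')
    simp [update_of_ne h, update_of_ne this]

theorem sat_ren {M : Model} {f : ℕ → ℕ} (hf : Injective f) (φ : Fm) :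
    ∀ (v : ℕ → M.Num) (V : ℕ → Set M.Num), Sat M v V (φ.ren f) ↔ Sat M (v ∘ f) V φ := by
  induction φ with
  | eq s t => intro v V; simp only [Fm.ren, sat_eq, val_ren]
  | lt s t => intro v V; simp only [Fm.ren, sat_lt, val_ren]
  | mem t i => intro v V; simp only [Fm.ren, sat_mem, val_ren]
  | neg φ ih => intro v V; simp only [Fm.ren, sat_neg, ih]
  | and φ ψ ih1 ih2 => intro v V; simp only [Fm.ren, sat_and, ih1, ih2]
  | all i φ ih => intro v V; simp only [Fm.ren, sat_all, ih, update_comp_inj hf]
  | allS i φ ih => intro v V; simp only [Fm.ren, sat_allS, ih]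

/-- coding terms by naturals -/
def Tm.cod : Tm → ℕ
  | .var i => 5 * i
  | .zero => 1
  | .one => 2
  | .add s t => 5 * Nat.pair s.cod t.cod + 3
  | .mul s t => 5 * Nat.pair s.cod t.cod + 4

theorem Tm.cod_inj : Injective Tm.cod := by
  intro s
  induction s with
  | var i => intro t h; cases t <;> simp only [Tm.cod] at h <;> first | omega | (congr; omega)
  | zero => intro t h; cases t <;> simp only [Tm.cod] at h <;> first | omega | rfl
  | one => intro t h; cases t <;> simp only [Tm.cod] at h <;> first | omega | rfl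
  | add a b iha ihb =>
    intro t h
    cases t with
    | add c d =>
      simp only [Tm.cod] at h
      have h' : Nat.pair a.cod b.cod = Nat.pair c.cod d.cod := by omega
      have := Nat.pair_eq_pair.1 h'
      rw [iha this.1, ihb this.2]
    | _ => simp only [Tm.cod] at h; omega
  | mul a b iha ihb =>
    intro t h
    cases t with
    | mul c d =>
      simp only [Tm.cod] at h
      have h' : Nat.pair a.cod b.cod = Nat.pair c.cod d.cod := by omega
      have := Nat.pair_eq_pair.1 h'
      rw [iha this.1, ihb this.2]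
    | _ => simp only [Tm.cod] at h; omega

/-- coding formulas by naturals -/
def Fm.cod : Fm → ℕ
  | .eq s t => 7 * Nat.pair s.cod t.cod
  | .lt s t => 7 * Nat.pair s.cod t.cod + 1
  | .mem t i => 7 * Nat.pair t.cod i + 2
  | .neg φ => 7 * φ.cod + 3
  | .and φ ψ => 7 * Nat.pair φ.cod ψ.cod + 4
  | .all i φ => 7 * Nat.pair i φ.cod + 5
  | .allS i φ => 7 * Nat.pair i φ.cod + 6

theorem Fm.cod_inj : Injective Fm.cod := by
  intro s
  induction s with
  | eq a b =>
    intro t h
    cases t with
    | eq c d =>
      simp only [Fm.cod] at h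
      have h' : Nat.pair a.cod b.cod = Nat.pair c.cod d.cod := by omega
      have := Nat.pair_eq_pair.1 h'
      rw [Tm.cod_inj this.1, Tm.cod_inj this.2]
    | _ => simp only [Fm.cod] at h; omega
  | lt a b =>
    intro t h
    cases t with
    | lt c d =>
      simp only [Fm.cod] at h
      have h' : Nat.pair a.cod b.cod = Nat.pair c.cod d.cod := by omega
      have := Nat.pair_eq_pair.1 h'
      rw [Tm.cod_inj this.1, Tm.cod_inj this.2]
    | _ => simp only [Fm.cod] at h; omega
  | mem a b =>
    intro t h
    cases t with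
    | mem c d =>
      simp only [Fm.cod] at h
      have h' : Nat.pair a.cod b = Nat.pair c.cod d := by omega
      have := Nat.pair_eq_pair.1 h'
      rw [Tm.cod_inj this.1, this.2]
    | _ => simp only [Fm.cod] at h; omega
  | neg a ih =>
    intro t h
    cases t with
    | neg c =>
      simp only [Fm.cod] at h
      rw [ih (show a.cod = c.cod by omega)]
    | _ => simp only [Fm.cod] at h; omega
  | and a b iha ihb =>
    intro t h
    cases t with
    | and c d =>
      simp only [Fm.cod] at h
      have h' : Nat.pair a.cod b.cod = Nat.pair c.cod d.cod := by omega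
      have := Nat.pair_eq_pair.1 h'
      rw [iha this.1, ihb this.2]
    | _ => simp only [Fm.cod] at h; omega
  | all a b ih =>
    intro t h
    cases t with
    | all c d =>
      simp only [Fm.cod] at h
      have h' : Nat.pair a b.cod = Nat.pair c d.cod := by omega
      have := Nat.pair_eq_pair.1 h'
      rw [this.1, ih this.2]
    | _ => simp only [Fm.cod] at h; omega
  | allS a b ih =>
    intro t h
    cases t with
    | allS c d =>
      simp only [Fm.cod] at h
      have h' : Nat.pair a b.cod = Nat.pair c d.cod := by omega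
      have := Nat.pair_eq_pair.1 h'
      rw [this.1, ih this.2]
    | _ => simp only [Fm.cod] at h; omega

instance : Nonempty Fm := ⟨.eq .zero .zero⟩

/-- an enumeration of all formulas -/
noncomputable def en : ℕ → Fm := invFun Fm.cod

theorem en_surj (φ : Fm) : ∃ e, en e = φ := ⟨φ.cod, leftInverse_invFun Fm.cod_inj φ⟩

end Pool.Agent.Helper317.SOA
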