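import Pool.Agent.Helper317.Mod

/-!
Bounded formulas over the structure, and the axioms of RCA0 and collection.
-/

namespace Pool.Agent.Helper317.SOA

open Function Filter

/-- pairing as a term -/
def pairT (s t : Tm) : Tm := .add (.mul (.add s t) (.add s t)) s

theorem val_pairT_NM (ρ : ℕ → ℕ) (s t : Tm) :
    (pairT s t).val NM ρ = pr (s.val NM ρ) (t.val NM ρ) := rfl

section satN
variable {ρ : ℕ → ℕ}
theorem satN_eq {s t : Tm} : satN ρ (.eq s t) ↔ s.val NM ρ = t.val NM ρ := Iff.rfl
theorem satN_lt {s t : Tm} : satN ρ (.lt s t) ↔ s.val NM ρ < t.val NM ρ := Iff.rfl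
theorem satN_mem {t : Tm} {a b : ℕ} : satN ρ (.mem t (Nat.pair a b)) ↔ t.val NM ρ ∈ base a b := by
  unfold satN; rw [sat_mem, BB_pair]
theorem satN_neg {φ : Fm} : satN ρ (.neg φ) ↔ ¬ satN ρ φ := Iff.rfl
theorem satN_and {φ ψ : Fm} : satN ρ (.and φ ψ) ↔ satN ρ φ ∧ satN ρ ψ := Iff.rfl
theorem satN_all {i : ℕ} {φ : Fm} : satN ρ (.all i φ) ↔ ∀ a : ℕ, satN (update ρ i a) φ := Iff.rfl
theorem satN_imp {φ ψ : Fm} : satN ρ (.imp φ ψ) ↔ (satN ρ φ → satN ρ ψ) := sat_imp
theorem satN_ex {i : ℕ} {φ : Fm} : satN ρ (.ex i φ) ↔ ∃ a : ℕ, satN (update ρ i a) φ := sat_ex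
theorem satN_ren {f : ℕ → ℕ} (hf : Injective f) (φ : Fm) : satN ρ (φ.ren f) ↔ satN (ρ ∘ f) φ :=
  sat_ren (M := NM) hf φ ρ BB
end satN

/-- closing under longer initial segments -/
def up (Θ : Fm) : Fm :=
  .ex (3 * Θ.bd + 3) (.and (.eq (.var (3 * Θ.bd + 3)) (.var 0))
    (.ex 0 (.and (.mem (pairT (.var 0) (.var (3 * Θ.bd + 3))) (Nat.pair 1 0)) Θ)))

theorem satN_up {Θ : Fm} {z : ℕ} {a b : ℕ → ℕ} :
    satN (asg z a b) (up Θ) ↔ ∃ m, satN (asg (cd ((dc z).take m)) a b) Θ := by
  unfold up
  rw [satN_ex]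
  constructor
  · rintro ⟨y, hy⟩
    rw [satN_and, satN_eq, satN_ex] at hy
    obtain ⟨h1, z', h2⟩ := hy
    rw [satN_and, satN_mem, val_pairT_NM] at h2
    simp only [Tm.val, update_self, update_of_ne (show (3 * Θ.bd + 3) ≠ 0 by omega),
      update_of_ne (show (0 : ℕ) ≠ 3 * Θ.bd + 3 by omega)] at h1 h2
    obtain ⟨⟨z1, z2, m, h3, h4⟩, h5⟩ := h2
    obtain ⟨rfl, rfl⟩ := pr_inj h3
    refine ⟨m, ?_⟩
    have h6 : y = z := h1
    rw [← h6, ← h4]
    refine (satN_congr Θ fun p hp => ?_).1 h5
    by_cases hp0 : p = 0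
    · subst hp0; rw [update_self]; rfl
    · rw [update_of_ne hp0, update_of_ne (by omega)]; simp [asg, hp0]
  · rintro ⟨m, hm⟩
    refine ⟨z, ?_⟩
    rw [satN_and, satN_eq, satN_ex]
    refine ⟨?_, cd ((dc z).take m), ?_⟩
    · simp only [Tm.val, update_self, update_of_ne (show (0 : ℕ) ≠ 3 * Θ.bd + 3 by omega)]; rfl
    · rw [satN_and, satN_mem, val_pairT_NM]
      refine ⟨⟨_, z, m, ?_, rfl⟩, ?_⟩
      · simp only [Tm.val, update_self, update_of_ne (show (3 * Θ.bd + 3) ≠ 0 by omega)]
      · refine (satN_congr Θ fun p hp => ?_).2 hm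
        by_cases hp0 : p = 0
        · subst hp0; rw [update_self]; rfl
        · rw [update_of_ne hp0, update_of_ne (by omega)]; simp [asg, hp0]

theorem satN_up_zi {Θ : Fm} {n m : ℕ} {a b : ℕ → ℕ} :
    satN (asg (zi n m) a b) (up Θ) ↔ ∃ m' ≤ m, satN (asg (zi n m') a b) Θ := by
  rw [satN_up]
  constructor
  · rintro ⟨m', h⟩
    refine ⟨min m' m, min_le_right _ _, ?_⟩
    have : cd ((dc (zi n m)).take m') = zi n (min m' m) := by
      rw [zi, dc_cd, zi]
      rcases le_total m' m with h' | h'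
      · rw [Zr_take n h', min_eq_left h']
      · rw [min_eq_right h', List.take_of_length_le (by rw [Zr_length]; exact h')]
    rwa [this] at h
  · rintro ⟨m', h, h1⟩
    refine ⟨m', ?_⟩
    rw [zi, dc_cd, Zr_take n h]
    exact h1

theorem St_iff_up {n k : ℕ} {Θ : Fm} {a b : ℕ → ℕ} :
    St n k Θ a b ↔ satN (asg (zi n (gg n k)) a b) (up Θ) := satN_up_zi.symm

/-- value of terms, coordinatewise -/
theorem rep_val (t : Tm) (v : ℕ → Car) : Ev fun n => rep (t.val MM v) n = t.val NM (rv v n) := by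
  induction t with
  | var i => exact ev_of_forall fun _ => rfl
  | zero => exact rep_cst 0
  | one => exact rep_cst 1
  | add s t ihs iht =>
    refine ((ihs.and iht).mp2 (rep_cadd (s.val MM v) (t.val MM v))) ?_
    rintro n ⟨h1, h2⟩ h3
    change rep (cadd (s.val MM v) (t.val MM v)) n = s.val NM (rv v n) + t.val NM (rv v n)
    rw [h3, h1, h2]
  | mul s t ihs iht =>
    refine ((ihs.and iht).mp2 (rep_cmul (s.val MM v) (t.val MM v))) ?_
    rintro n ⟨h1, h2⟩ h3
    change rep (cmul (s.val MM v) (t.val MM v)) n = s.val NM (rv v n) * t.val NM (rv v n)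
    rw [h3, h1, h2]

/-- renaming of number variables into the positions `3i+1` -/
def r1 (i : ℕ) : ℕ := 3 * i + 1

theorem asg_comp_r1 (z : ℕ) (a b : ℕ → ℕ) : asg z a b ∘ r1 = a := by
  funext i; exact asg_one z a b i

theorem val_r1 (t : Tm) (z : ℕ) (a b : ℕ → ℕ) : (t.ren r1).val NM (asg z a b) = t.val NM a := by
  rw [val_ren]; exact congrArg (fun v => t.val NM v) (asg_comp_r1 z a b)

/-- substitution of a term and a parameter into a defining formula -/
def sub (G : Fm) (t : Tm) (i : ℕ) : Fm :=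
  .ex 3 (.and (.eq (.var 3) (t.ren r1)) (.ex 6 (.and (.eq (.var 6) (.var (3 * i + 2)))
    (G.ren fun j => 3 * j))))

theorem satN_sub {G : Fm} {t : Tm} {i z : ℕ} {a b : ℕ → ℕ} :
    satN (asg z a b) (sub G t i) ↔ satN (a3 z (t.val NM a) (b i)) G := by
  have key : ∀ x y, (update (update (asg z a b) 3 x) 6 y) ∘ (fun j => 3 * j) = a3 z x y := by
    intro x y
    funext j
    simp only [comp_apply]
    by_cases h0 : j = 0
    · subst h0; rw [update_of_ne (by omega), update_of_ne (by omega)]; rfl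
    by_cases h1 : j = 1
    · subst h1; rw [update_of_ne (by omega), update_self]; rfl
    by_cases h2 : j = 2
    · subst h2; rw [update_self]; rfl
    · rw [update_of_ne (by omega), update_of_ne (by omega)]
      unfold a3
      rw [if_neg h0, if_neg h1, if_neg h2]
      unfold asg
      rw [if_neg (by omega), if_neg (by omega), if_neg (by omega)]
  have hinj : Injective (fun j : ℕ => 3 * j) := fun x y h => by simp only at h; omega
  have ht : ∀ x, (t.ren r1).val NM (update (asg z a b) 3 x) = t.val NM a := by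
    intro x
    rw [val_ren]
    congr 1
    funext j
    simp only [comp_apply, r1]
    rw [update_of_ne (by omega), asg_one]
  unfold sub
  rw [satN_ex]
  constructor
  · rintro ⟨x, hx⟩
    rw [satN_and, satN_eq, satN_ex, ht] at hx
    obtain ⟨h1, y, h2⟩ := hx
    rw [satN_and, satN_eq, satN_ren hinj, key] at h2
    simp only [Tm.val, update_self] at h1 h2
    rw [update_of_ne (by omega), update_of_ne (by omega), asg_two] at h2
    rw [← h1, ← h2.1]
    exact h2.2
  · intro h
    refine ⟨t.val NM a, ?_⟩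
    rw [satN_and, satN_eq, satN_ex, ht]
    refine ⟨by simp [Tm.val], b i, ?_⟩
    rw [satN_and, satN_eq, satN_ren hinj, key]
    refine ⟨?_, h⟩
    simp only [Tm.val, update_self]
    rw [update_of_ne (by omega), update_of_ne (by omega), asg_two]

theorem a3_congr_ev {F : Fm} {f g f' g' : ℕ → ℕ} {z : ℕ → ℕ} (h1 : Ev fun n => f n = f' n)
    (h2 : Ev fun n => g n = g' n) :
    (Ev fun n => satN (a3 (z n) (f n) (g n)) F) ↔ (Ev fun n => satN (a3 (z n) (f' n) (g' n)) F) := by
  apply Ev.congr
  exact h1.mp2 h2 fun n e1 e2 => by rw [e1, e2]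

theorem SigF_iff_Sg {G : Fm} {t : Tm} {i : ℕ} {v w : ℕ → Car} :
    SigF G (t.val MM v) (w i) ↔ Sg (sub G t i) v w := by
  unfold SigF Sg
  refine exists_congr fun m => ?_
  apply Ev.congr
  refine (rep_val t v).mp fun n hn => ?_
  rw [hn, satN_sub]
  exact Iff.rfl

theorem exists_small (v w : ℕ → Car) (N : ℕ) (c : Car) : ∃ k, Small N k v ∧ Small N k w ∧
    Ev fun n => rep c n < gg n k := by
  obtain ⟨k1, h1⟩ := common_bound v N
  obtain ⟨k2, h2⟩ := common_bound w N
  obtain ⟨k3, h3⟩ := rep_bound c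
  refine ⟨max k1 (max k2 k3), fun i hi => bound_mono (le_max_left _ _) (h1 i hi),
    fun i hi => bound_mono (le_trans (le_max_left _ _) (le_max_right _ _)) (h2 i hi),
    bound_mono (le_trans (le_max_right _ _) (le_max_right _ _)) h3⟩

theorem Small.mono {N N' k k' : ℕ} {v : ℕ → Car} (h : Small N k v) (hN : N' ≤ N) (hk : k ≤ k') :
    Small N' k' v := fun i hi => bound_mono hk (h i (lt_of_lt_of_le hi hN))

theorem Small.update {N k : ℕ} {v : ℕ → Car} (h : Small N k v) (i : ℕ) {a : Car}
    (ha : Ev fun n => rep a n < gg n k) : Small N k (update v i a) := by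
  intro j hj
  by_cases hji : j = i
  · subst hji; rw [update_self]; exact ha
  · rw [update_of_ne hji]; exact h j hj

/-- the number `gg k` as a member of the cut -/
theorem gg_bound (k : ℕ) : ∃ l, Ev fun n => gg n k < gg n l :=
  ⟨k + 1, ev_of_forall fun n => gg_strictMono n (Nat.lt_succ_self k)⟩

noncomputable def gk (k : ℕ) : Car := mk (fun n => gg n k) (gg_bound k)
theorem rep_gk (k : ℕ) : Ev fun n => rep (gk k) n = gg n k := rep_mk _

theorem Sg_up_iff {Θ : Fm} {v w : ℕ → Car} : Sg (up Θ) v w ↔ Sg Θ v w := by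
  constructor
  · rintro ⟨m, hm⟩
    obtain ⟨k, hk⟩ := rep_bound m
    apply Sg_of_St (k := k)
    refine hm.mp2 hk fun n h1 h2 => ?_
    obtain ⟨m', h3, h4⟩ := satN_up_zi.1 h1
    exact ⟨m', h3.trans h2.le, h4⟩
  · rintro ⟨m, hm⟩
    exact ⟨m, hm.mp fun n hn => satN_up_zi.2 ⟨_, le_rfl, hn⟩⟩

/-- compile a bounded formula -/
theorem compile (F : ℕ → Fm × Fm) {θ : Fm} (hθ : IsDelta0 θ) : ∃ P N : Fm,
    ∀ (v w : ℕ → Car) (V : ℕ → Set Car), (∀ i, Desc (F i) (w i) (V i)) →
      ((Sat MM v V θ ↔ Sg P v w) ∧ (¬ Sat MM v V θ ↔ Sg N v w)) := by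
  induction hθ with
  | eq s t =>
    have key : ∀ (v w : ℕ → Car), Ev fun n => (rep (s.val MM v) n = rep (t.val MM v) n ↔
        ∀ z, satN (asg z (rv v n) (rv w n)) (.eq (s.ren r1) (t.ren r1))) := by
      intro v w
      refine (rep_val s v).mp2 (rep_val t v) fun n h1 h2 => ?_
      rw [h1, h2]
      constructor
      · intro h z; rw [satN_eq, val_r1, val_r1]; exact h
      · intro h; have := h 0; rwa [satN_eq, val_r1, val_r1] at this
    have hz : ∀ (a b : ℕ → ℕ) z, satN (asg z a b) (.eq (s.ren r1) (t.ren r1)) →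
        ∀ z', satN (asg z' a b) (.eq (s.ren r1) (t.ren r1)) := by
      intro a b z h z'
      rw [satN_eq, val_r1, val_r1] at h ⊢; exact h
    refine ⟨.eq (s.ren r1) (t.ren r1), .neg (.eq (s.ren r1) (t.ren r1)), fun v w V _ => ⟨?_, ?_⟩⟩
    · rw [sat_eq, show (s.val MM v = t.val MM v ↔ _) from car_ext]
      constructor
      · intro h
        exact ⟨cst 0, h.mp2 (key v w) fun n h1 h2 => h2.1 h1 _⟩
      · rintro ⟨m, hm⟩
        exact hm.mp2 (key v w) fun n h1 h2 => h2.2 (hz _ _ _ h1)
    · rw [sat_eq, show (s.val MM v = t.val MM v ↔ _) from car_ext, ← ev_not]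
      constructor
      · intro h
        exact ⟨cst 0, h.mp2 (key v w) fun n h1 h2 h3 => h1 (h2.2 (hz _ _ _ h3))⟩
      · rintro ⟨m, hm⟩
        exact hm.mp2 (key v w) fun n h1 h2 h3 => h1 (h2.1 h3 _)
  | lt s t =>
    have key : ∀ (v w : ℕ → Car), Ev fun n => (rep (s.val MM v) n < rep (t.val MM v) n ↔
        ∀ z, satN (asg z (rv v n) (rv w n)) (.lt (s.ren r1) (t.ren r1))) := by
      intro v w
      refine (rep_val s v).mp2 (rep_val t v) fun n h1 h2 => ?_
      rw [h1, h2]
      constructor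
      · intro h z; rw [satN_lt, val_r1, val_r1]; exact h
      · intro h; have := h 0; rwa [satN_lt, val_r1, val_r1] at this
    have hz : ∀ (a b : ℕ → ℕ) z, satN (asg z a b) (.lt (s.ren r1) (t.ren r1)) →
        ∀ z', satN (asg z' a b) (.lt (s.ren r1) (t.ren r1)) := by
      intro a b z h z'
      rw [satN_lt, val_r1, val_r1] at h ⊢; exact h
    refine ⟨.lt (s.ren r1) (t.ren r1), .neg (.lt (s.ren r1) (t.ren r1)), fun v w V _ => ⟨?_, ?_⟩⟩
    · rw [sat_lt]
      constructor
      · intro h
        exact ⟨cst 0, Ev.mp2 h (key v w) fun n h1 h2 => h2.1 h1 _⟩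
      · rintro ⟨m, hm⟩
        exact hm.mp2 (key v w) fun n h1 h2 => h2.2 (hz _ _ _ h1)
    · rw [sat_lt]
      constructor
      · intro h
        exact ⟨cst 0, (ev_not.2 h).mp2 (key v w) fun n h1 h2 h3 => h1 (h2.2 (hz _ _ _ h3))⟩
      · rintro ⟨m, hm⟩
        exact ev_not.1 (hm.mp2 (key v w) fun n h1 h2 h3 => h1 (h2.1 h3 _))
  | mem t i =>
    refine ⟨sub (F i).1 t i, sub (F i).2 t i, fun v w V hV => ⟨?_, ?_⟩⟩
    · rw [sat_mem, ← SigF_iff_Sg]; exact (hV i _).1
    · rw [sat_mem, ← SigF_iff_Sg]; exact (hV i _).2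
  | neg _ ih =>
    obtain ⟨P, N, h⟩ := ih
    refine ⟨N, P, fun v w V hV => ⟨(h v w V hV).2, ?_⟩⟩
    rw [sat_neg, not_not]; exact (h v w V hV).1
  | and _ _ ih1 ih2 =>
    obtain ⟨P1, N1, h1⟩ := ih1
    obtain ⟨P2, N2, h2⟩ := ih2
    refine ⟨.and (up P1) (up P2), .neg (.and (.neg N1) (.neg N2)), fun v w V hV => ⟨?_, ?_⟩⟩
    · rw [sat_and, (h1 v w V hV).1, (h2 v w V hV).1]
      constructor
      · rintro ⟨ha, hb⟩
        obtain ⟨k, hk1, hk2, -⟩ := exists_small v w (max P1.bd P2.bd) (cst 0)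
        have e1 := St_of_Sg (hk1.mono (le_max_left _ _) le_rfl) (hk2.mono (le_max_left _ _) le_rfl) ha
        have e2 := St_of_Sg (hk1.mono (le_max_right _ _) le_rfl) (hk2.mono (le_max_right _ _) le_rfl) hb
        refine ⟨gk (k + 1), (e1.and e2).mp2 (rep_gk (k + 1)) ?_⟩
        rintro n ⟨h1, h2⟩ h3
        rw [h3, satN_and]
        exact ⟨St_iff_up.1 h1, St_iff_up.1 h2⟩
      · rintro ⟨m, hm⟩
        exact ⟨Sg_up_iff.1 ⟨m, hm.mp fun n hn => (satN_and.1 hn).1⟩,
          Sg_up_iff.1 ⟨m, hm.mp fun n hn => (satN_and.1 hn).2⟩⟩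
    · rw [sat_and, not_and_or, (h1 v w V hV).2, (h2 v w V hV).2]
      constructor
      · rintro (⟨m, hm⟩ | ⟨m, hm⟩)
        · exact ⟨m, hm.mp fun n hn => by rw [satN_neg, satN_and, satN_neg, satN_neg]; tauto⟩
        · exact ⟨m, hm.mp fun n hn => by rw [satN_neg, satN_and, satN_neg, satN_neg]; tauto⟩
      · rintro ⟨m, hm⟩
        have : Ev fun n => satN (asg (zi n (rep m n)) (rv v n) (rv w n)) N1 ∨
            satN (asg (zi n (rep m n)) (rv v n) (rv w n)) N2 :=
          hm.mp fun n hn => by rw [satN_neg, satN_and, satN_neg, satN_neg] at hn; tauto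
        rcases ev_or.1 this with h | h
        · exact Or.inl ⟨m, h⟩
        · exact Or.inr ⟨m, h⟩
  | @ball i t θ ht _ ih =>
    obtain ⟨P, N, h⟩ := ih
    refine ⟨.all (3 * i + 1) (.imp (.lt (.var (3 * i + 1)) (t.ren r1)) (up P)),
      .ex (3 * i + 1) (.and (.lt (.var (3 * i + 1)) (t.ren r1)) N), fun v w V hV => ?_⟩
    have hfresh : ∀ (a : ℕ → ℕ) (y : ℕ), t.val NM (update a i y) = t.val NM a := by
      intro a y
      clear h
      induction t with
      | var j => simp only [Tm.Fresh] at ht; simp only [Tm.val]; rw [update_of_ne ht]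
      | zero => rfl
      | one => rfl
      | add s t ihs iht => simp only [Tm.Fresh] at ht; simp only [Tm.val]; rw [ihs ht.1, iht ht.2]
      | mul s t ihs iht => simp only [Tm.Fresh] at ht; simp only [Tm.val]; rw [ihs ht.1, iht ht.2]
    have hltT : ∀ (z : ℕ) (a b : ℕ → ℕ) (y : ℕ),
        satN (update (asg z a b) (3 * i + 1) y) (.lt (.var (3 * i + 1)) (t.ren r1)) ↔ y < t.val NM a := by
      intro z a b y
      rw [update_asg_one, satN_lt, val_r1, hfresh]
      simp only [Tm.val, asg_one, update_self]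
    have hbody : ∀ a : Car, (Sat MM (update v i a) V (.imp (.lt (.var i) t) θ) ↔
        ((Ev fun n => rep a n < t.val NM (rv v n)) → Sg P (update v i a) w)) := by
      intro a
      rw [sat_imp, (h (update v i a) w V hV).1, sat_lt]
      have : MM.lt ((Tm.var i).val MM (update v i a)) (t.val MM (update v i a)) ↔
          Ev fun n => rep a n < t.val NM (rv v n) := by
        change (Ev fun n => rep ((Tm.var i).val MM (update v i a)) n < rep (t.val MM (update v i a)) n) ↔ _
        apply Ev.congr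
        refine (rep_val t (update v i a)).mp fun n hn => ?_
        rw [hn, rv_update, hfresh]
        simp [Tm.val]
      rw [this]
    have hmain : Sat MM v V (.all i (.imp (.lt (.var i) t) θ)) ↔
        ∀ a : Car, (Ev fun n => rep a n < t.val NM (rv v n)) → Sg P (update v i a) w := by
      rw [sat_all]; exact forall_congr' hbody
    refine ⟨?_, ?_⟩
    · rw [hmain]
      constructor
      · intro H
        obtain ⟨k, hk1, hk2, hk3⟩ := exists_small v w P.bd (t.val MM v)
        refine ⟨gk (k + 1), ?_⟩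
        have hall : Ev fun n => ∀ y < t.val NM (rv v n),
            satN (asg (zi n (gg n (k + 1))) (update (rv v n) i y) (rv w n)) (up P) := by
          by_contra hcon
          rw [← ev_not] at hcon
          have hcon' : Ev fun n => ∃ y, y < t.val NM (rv v n) ∧
              ¬ satN (asg (zi n (gg n (k + 1))) (update (rv v n) i y) (rv w n)) (up P) :=
            hcon.mp fun n hn => by push Not at hn; exact hn
          classical
          let f : ℕ → ℕ := fun n => if h : ∃ y, y < t.val NM (rv v n) ∧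
              ¬ satN (asg (zi n (gg n (k + 1))) (update (rv v n) i y) (rv w n)) (up P) then h.choose else 0
          have hf : Ev fun n => f n < t.val NM (rv v n) ∧
              ¬ satN (asg (zi n (gg n (k + 1))) (update (rv v n) i (f n)) (rv w n)) (up P) :=
            hcon'.mp fun n hn => by simp only [f, dif_pos hn]; exact hn.choose_spec
          have hfb : ∃ k, Ev fun n => f n < gg n k := by
            apply bound_of_lt (x := t.val MM v)
            refine hf.mp2 (rep_val t v) fun n h1 h2 => ?_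
            rw [h2]; exact h1.1.le
          have hlt : Ev fun n => rep (mk f hfb) n < t.val NM (rv v n) :=
            hf.mp2 (rep_mk hfb) fun n h1 h2 => by rw [h2]; exact h1.1
          have hsm : Ev fun n => rep (mk f hfb) n < gg n k :=
            (hlt.and hk3).mp2 (rep_val t v) fun n h1 h2 => by rw [h2] at h1; exact h1.1.trans h1.2
          have hst := St_of_Sg (hk1.update i hsm) hk2 (H _ hlt)
          have : Ev fun _ => False := by
            refine (hst.and hf).mp2 (rep_mk hfb) ?_
            rintro n ⟨h1, h2⟩ h3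
            rw [rv_update, h3, St_iff_up] at h1
            exact h2.2 h1
          exact ev_const.1 this
        refine hall.mp2 (rep_gk (k + 1)) fun n h1 h2 => ?_
        rw [h2, satN_all]
        intro y
        rw [satN_imp, hltT, update_asg_one]
        exact h1 y
      · rintro ⟨m, hm⟩ a ha
        apply Sg_up_iff.1
        refine ⟨m, hm.mp2 ha fun n h1 h2 => ?_⟩
        rw [satN_all] at h1
        have h3 := h1 (rep a n)
        rw [satN_imp, hltT, update_asg_one] at h3
        rw [rv_update]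
        exact h3 h2
    · rw [hmain]
      push Not
      constructor
      · rintro ⟨a, ha, hn⟩
        have hN : Sg N (update v i a) w := by
          rw [← (h (update v i a) w V hV).2, (h (update v i a) w V hV).1]; exact hn
        obtain ⟨m, hm⟩ := hN
        refine ⟨m, hm.mp2 ha fun n h1 h2 => ?_⟩
        rw [satN_ex]
        refine ⟨rep a n, ?_⟩
        rw [satN_and, hltT, update_asg_one, ← rv_update]
        exact ⟨h2, h1⟩
      · rintro ⟨m, hm⟩
        have hm' : Ev fun n => ∃ y, y < t.val NM (rv v n) ∧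
            satN (asg (zi n (rep m n)) (update (rv v n) i y) (rv w n)) N := by
          refine hm.mp fun n hn => ?_
          rw [satN_ex] at hn
          obtain ⟨y, hy⟩ := hn
          rw [satN_and, hltT, update_asg_one] at hy
          exact ⟨y, hy⟩
        classical
        let f : ℕ → ℕ := fun n => if h : ∃ y, y < t.val NM (rv v n) ∧
            satN (asg (zi n (rep m n)) (update (rv v n) i y) (rv w n)) N then h.choose else 0
        have hf : Ev fun n => f n < t.val NM (rv v n) ∧
            satN (asg (zi n (rep m n)) (update (rv v n) i (f n)) (rv w n)) N :=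
          hm'.mp fun n hn => by simp only [f, dif_pos hn]; exact hn.choose_spec
        have hfb : ∃ k, Ev fun n => f n < gg n k := by
          apply bound_of_lt (x := t.val MM v)
          refine hf.mp2 (rep_val t v) fun n h1 h2 => ?_
          rw [h2]; exact h1.1.le
        refine ⟨mk f hfb, hf.mp2 (rep_mk hfb) fun n h1 h2 => by rw [h2]; exact h1.1, ?_⟩
        rw [← (h (update v i (mk f hfb)) w V hV).1, (h (update v i (mk f hfb)) w V hV).2]
        refine ⟨m, hf.mp2 (rep_mk hfb) fun n h1 h2 => ?_⟩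
        rw [rv_update, h2]; exact h1.2

end Pool.Agent.Helper317.SOA
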