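import Pool.Agent.Helper317.Ax

/-!
The Pi-2 set, the sequence of finite sets, failure of Sigma-2 induction, and the absence of
definable choice functions.
-/

namespace Pool.Agent.Helper317.SOA

open Function Filter

/-! the generic set -/

/-- bits of the generic -/
noncomputable def zb (n i : ℕ) : Bool := (qq n i).getD i false

theorem zb_eq {n i k : ℕ} (h : i < gg n k) : (qq n k).getD i false = zb n i := by
  rcases le_total i k with hk | hk
  · exact (prefix_getD (qq_ext n hk).1 (lt_gg n i)).symm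
  · exact prefix_getD (qq_ext n hk).1 h

theorem Zr_getD {n m i : ℕ} (h : i < m) : (Zr n m).getD i false = zb n i := by
  rw [← zb_eq (h.trans (lt_gg n m)), Zr]
  rw [List.getD_eq_getElem?_getD, List.getD_eq_getElem?_getD, List.getElem?_take_of_lt h]

theorem rep_pair (a b : Car) : Ev fun n => rep (MM.pair a b) n = pr (rep a n) (rep b n) :=
  (rep_val (pairT (.var 0) (.var 1)) (fun i => if i = 0 then a else b)).mp fun _ hn => hn

theorem pair_inj {a b c d : Car} (h : MM.pair a b = MM.pair c d) : a = c ∧ b = d := by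
  have : Ev fun n => rep a n = rep c n ∧ rep b n = rep d n := by
    refine (((car_ext.1 h).and (rep_pair a b)).mp2 (rep_pair c d)) ?_
    rintro n ⟨h1, h2⟩ h3
    rw [h2, h3] at h1
    exact pr_inj h1
  exact ⟨car_ext.2 (ev_and.1 this).1, car_ext.2 (ev_and.1 this).2⟩

def Zset : Set Car := {i | Ev fun n => zb n (rep i n) = true}

theorem Zset_mem : Zset ∈ MM.sets := by
  refine ⟨(.mem (pairT (.var 1) (.var 0)) (Nat.pair 2 0),
    .and (.mem (pairT (.add (.var 1) .one) (.var 0)) (Nat.pair 0 0))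
      (.neg (.mem (pairT (.var 1) (.var 0)) (Nat.pair 2 0)))), cst 0, fun x => ?_⟩
  have hbit : ∀ n m y w, satN (a3 (zi n m) y w) (.mem (pairT (.var 1) (.var 0)) (Nat.pair 2 0)) ↔
      (Zr n m).getD y false = true := by
    intro n m y w
    rw [satN_mem, val_pairT_NM]
    constructor
    · rintro ⟨y', z', h1, h2⟩
      obtain ⟨h3, h4⟩ := pr_inj h1
      have h3' : y = y' := h3
      have h4' : zi n m = z' := h4
      rw [← h3', ← h4', zi, dc_cd] at h2
      exact h2
    · intro h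
      exact ⟨y, zi n m, rfl, by rw [zi, dc_cd]; exact h⟩
  have hlen : ∀ n m y w, satN (a3 (zi n m) y w) (.mem (pairT (.add (.var 1) .one) (.var 0)) (Nat.pair 0 0)) ↔
      y + 1 ≤ m := by
    intro n m y w
    rw [satN_mem, val_pairT_NM]
    constructor
    · rintro ⟨y', z', h1, h2⟩
      obtain ⟨h3, h4⟩ := pr_inj h1
      have h3' : y + 1 = y' := h3
      have h4' : zi n m = z' := h4
      rw [← h3', ← h4', zi, dc_cd, Zr_length] at h2
      exact h2
    · intro h
      exact ⟨y + 1, zi n m, rfl, by rw [zi, dc_cd, Zr_length]; exact h⟩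
  have hlt : ∀ n m y, (Zr n m).getD y false = true → y < m := by
    intro n m y h
    by_contra hn
    rw [List.getD_eq_default _ _ (by rw [Zr_length]; omega)] at h
    exact absurd h (by simp)
  obtain ⟨k, hk⟩ := rep_bound x
  constructor
  · constructor
    · intro h
      refine ⟨gk k, (Ev.and h hk).mp2 (rep_gk k) ?_⟩
      rintro n ⟨h1, h2⟩ h3
      rw [h3, hbit, Zr_getD h2]; exact h1
    · rintro ⟨m, hm⟩
      refine Ev.mp hm fun n hn => ?_
      rw [hbit] at hn
      rw [← Zr_getD (hlt _ _ _ hn)]; exact hn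
  · rw [show (x ∉ Zset ↔ _) from Iff.rfl, show (x ∈ Zset) = (Ev fun n => zb n (rep x n) = true) from rfl,
      ← ev_not]
    constructor
    · intro h
      refine ⟨gk k, (Ev.and h hk).mp2 (rep_gk k) ?_⟩
      rintro n ⟨h1, h2⟩ h3
      rw [h3, satN_and, satN_neg, hbit, hlen, Zr_getD h2]; exact ⟨h2, h1⟩
    · rintro ⟨m, hm⟩
      refine Ev.mp hm fun n hn => ?_
      rw [satN_and, satN_neg, hbit, hlen] at hn
      rw [← Zr_getD hn.1]; exact hn.2

/-! the sets -/

/-- the bound for the finite sets -/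
noncomputable def bb : Car := mk (fun n => 2 ^ n) ⟨0, ev_of_forall fun n => by rw [gg_zero]; omega⟩
theorem rep_bb : Ev fun n => rep bb n = 2 ^ n := rep_mk _

/-- the finite sets `{(s,x) : x < b}` -/
noncomputable def AA (s : Car) : Set Car := {i | ∃ x, clt x bb ∧ i = MM.pair s x}

/-- the Pi-2 set -/
noncomputable def XX : Set Car := {i | ∀ t0, ∃ t, clt t0 t ∧ MM.pair i t ∈ Zset}

theorem XX_pi : MM.PiSet 2 XX := by
  refine ⟨.all 1 (.ex 2 (.and (.lt (.var 1) (.var 2)) (.mem (pairT (.var 0) (.var 2)) 0))), ?_,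
    fun _ => cst 0, fun _ => Zset, fun _ => Zset_mem, fun a => ?_⟩
  · exact ⟨1, _, rfl, 2, _, rfl, .and (.lt _ _) (.mem _ _)⟩
  · rw [sat_all]
    refine forall_congr' fun t0 => ?_
    rw [sat_ex]
    refine exists_congr fun t => ?_
    rw [sat_and, sat_lt, sat_mem]
    simp only [Tm.val, pairT]
    rw [update_of_ne (by omega), update_self, update_self, update_of_ne (by omega),
      update_of_ne (by omega), update_self]
    exact Iff.rfl

theorem XX_stage {i : Car} (h : i ∈ XX) (k : ℕ) : Ev fun n => rep i n ∈ EE n k := by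
  obtain ⟨t, ht, hz⟩ := h (gk k)
  obtain ⟨l, hl⟩ := rep_bound (MM.pair i t)
  have hl' := bound_mono (le_max_left l k) hl
  refine ((Ev.and ht (rep_gk k)).and (Ev.and hz hl')).mp2 (rep_pair i t) ?_
  rintro n ⟨⟨h1, h2⟩, h3, h4⟩ h5
  rw [h2] at h1
  rw [h5] at h3 h4
  rw [← zb_eq h4] at h3
  have hge : (qq n k).length ≤ pr (rep i n) (rep t n) :=
    h1.le.trans (le_pr_right _ _)
  obtain ⟨a, ha, t', ht'⟩ := (qq_ext n (le_max_right l k)).2 _ hge h3
  rw [(pr_inj ht').1]; exact ha

theorem XX_of_stages {i : Car} (h : ∀ k, Ev fun n => rep i n ∈ EE n k) : i ∈ XX := by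
  intro t0
  obtain ⟨k1, hk1⟩ := rep_bound i
  obtain ⟨k2, hk2⟩ := rep_bound t0
  set k := max k1 k2
  have hk1' := bound_mono (le_max_left k1 k2) hk1
  have hk2' := bound_mono (le_max_right k1 k2) hk2
  obtain ⟨f, hf⟩ := choose_seq (P := fun n t => gg n k < t ∧ (qq n (k + 1)).getD (pr (rep i n) t) false = true)
    ((h k).mp2 hk1' fun n h1 h2 => (qq_succ n k).hit _ h2 h1)
  have hlt : Ev fun n => pr (rep i n) (f n) < gg n (k + 1) := by
    refine hf.mp fun n hn => ?_
    by_contra hcon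
    rw [List.getD_eq_default _ _ (not_lt.1 hcon)] at hn
    exact absurd hn.2 (by simp)
  have hfb : ∃ k, Ev fun n => f n < gg n k :=
    ⟨k + 1, hlt.mp fun n hn => lt_of_le_of_lt (le_pr_right _ _) hn⟩
  refine ⟨mk f hfb, ?_, ?_⟩
  · refine (hf.and hk2').mp2 (rep_mk hfb) ?_
    rintro n ⟨h1, h2⟩ h3
    rw [h3]; exact h2.trans h1.1
  · refine ((hf.and hlt).and (rep_mk hfb)).mp2 (rep_pair i (mk f hfb)) ?_
    rintro n ⟨⟨h1, h2⟩, h3⟩ h4
    rw [h4, h3, ← zb_eq h2]; exact h1.2

theorem AA_inter_XX (s : Car) : (AA s ∩ XX).Nonempty := by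
  classical
  let g : ℕ → ℕ → Bool := fun n j => !(diagF j.unpair.2 (zz n j.unpair.1) (rep s n)).testBit j
  let f : ℕ → ℕ := fun n => if rep s n = 0 then n else Nat.ofBits (fun j : Fin n => g n j)
  have hf2 : ∀ n, f n < 2 ^ n := by
    intro n
    simp only [f]
    split
    · exact Nat.lt_two_pow_self
    · exact Nat.ofBits_lt_two_pow _
  have hfb : ∃ k, Ev fun n => f n < gg n k :=
    ⟨0, ev_of_forall fun n => by rw [gg_zero]; have := hf2 n; omega⟩
  refine ⟨MM.pair s (mk f hfb), ⟨mk f hfb, ?_, rfl⟩, XX_of_stages fun k => ?_⟩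
  · exact (rep_mk hfb).mp2 rep_bb fun n h1 h2 => by rw [h1, h2]; exact hf2 n
  · refine ((rep_mk hfb).and (ev_ge k)).mp2 (rep_pair s (mk f hfb)) ?_
    rintro n ⟨h1, h2⟩ h3
    rw [h3, h1]
    refine ⟨rep s n, f n, rfl, ?_⟩
    by_cases h0 : rep s n = 0
    · left; refine ⟨h0, ?_⟩; simp only [f, if_pos h0]; exact h2
    · right
      refine ⟨h0, hf2 n, fun j hj => ?_⟩
      simp only [f, if_neg h0]
      rw [Nat.testBit_ofBits_lt _ _ (lt_of_lt_of_le hj h2)]

theorem AA_disj (s t : Car) (h : s ≠ t) : Disjoint (AA s) (AA t) := by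
  rw [Set.disjoint_left]
  rintro i ⟨x, _, rfl⟩ ⟨y, _, h2⟩
  exact h (pair_inj h2).1

theorem XX_zero (a : Car) : MM.pair (cst 0) a ∈ XX ↔ ∀ k : ℕ, Ev fun n => k ≤ rep a n := by
  constructor
  · intro h k
    refine ((XX_stage h k).and (rep_pair (cst 0) a)).mp2 (rep_cst 0) ?_
    rintro n ⟨h1, h2⟩ h3
    rw [h2, h3] at h1
    obtain ⟨s, x, h4, h5⟩ := h1
    obtain ⟨h6, h7⟩ := pr_inj h4
    rcases h5 with h5 | h5
    · rw [h7]; exact h5.2
    · exact absurd h6.symm h5.1
  · intro h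
    refine XX_of_stages fun k => ?_
    refine ((h k).and (rep_pair (cst 0) a)).mp2 (rep_cst 0) ?_
    rintro n ⟨h1, h2⟩ h3
    rw [h2, h3]
    exact ⟨0, rep a n, rfl, Or.inl ⟨rfl, h1⟩⟩

theorem MM_not_ISigma2 : ¬ ISigma 2 MM := by
  intro hI
  let χ : Fm := .ex 1 (.all 2 (.neg (.and (.lt (.var 1) (.var 2))
    (.mem (pairT (pairT .zero (.var 0)) (.var 2)) 0))))
  have hχ : IsSigma 2 χ := ⟨1, _, rfl, 2, _, rfl, .neg (.and (.lt _ _) (.mem _ _))⟩
  have key : ∀ a : Car, Sat MM (update (fun _ => cst 0) 0 a) (fun _ => Zset) χ ↔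
      MM.pair (cst 0) a ∉ XX := by
    intro a
    simp only [χ]
    rw [sat_ex]
    rw [show (MM.pair (cst 0) a ∉ XX ↔ ¬ ∀ t0, ∃ t, clt t0 t ∧ MM.pair (MM.pair (cst 0) a) t ∈ Zset) from Iff.rfl]
    rw [not_forall]
    refine exists_congr fun t0 => ?_
    rw [sat_all, not_exists]
    refine forall_congr' fun t => ?_
    rw [sat_neg, sat_and, sat_lt, sat_mem]
    simp only [Tm.val, pairT]
    rw [update_of_ne (by omega), update_self, update_self, update_of_ne (by omega),
      update_of_ne (by omega), update_self]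
    exact Iff.rfl
  have h := hI χ hχ 0 (fun _ => cst 0) (fun _ => Zset) (fun _ => Zset_mem) (by
    rw [key, XX_zero]
    intro h
    have := (h 1).mp2 (rep_cst 0) (r := fun _ => False) fun n h1 h2 => by
      have h2' : rep MM.zero n = 0 := h2
      omega
    exact ev_const.1 this) (by
    intro a ha
    rw [key, XX_zero] at ha ⊢
    intro h
    apply ha
    intro k
    refine ((h (k + 1)).and (rep_cadd a (cst 1))).mp2 (rep_cst 1) ?_
    rintro n ⟨h1, h2⟩ h3
    have h2' : rep (MM.add a MM.one) n = rep a n + rep (cst 1) n := h2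
    rw [h2', h3] at h1; omega)
  have hb : ∃ k, Ev fun n => (fun n => n) n < gg n k :=
    ⟨0, ev_of_forall fun n => by rw [gg_zero]; have : 0 < 2 ^ n := by positivity
                                 simp only; omega⟩
  have := h (mk (fun n => n) hb)
  rw [key, XX_zero] at this
  apply this
  intro k
  exact (rep_mk hb).mp2 (ev_ge k) fun n h1 h2 => by rw [h1]; exact h2

/-! codes -/

theorem NM_code_unique {c c' : ℕ} {A : Set ℕ} (h : NM.Code c A) (h' : NM.Code c' A) : c = c' := by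
  have h1 := h.2 c' h'.1
  have h2 := h'.2 c h.1
  have h1' : ¬ c' < c := h1
  have h2' : ¬ c < c' := h2
  omega

theorem MM_dvd (a b : Car) : MM.Dvd a b ↔ Ev fun n => NM.Dvd (rep a n) (rep b n) := by
  constructor
  · rintro ⟨c, hc⟩
    refine ((car_ext.1 hc).mp2 (rep_cmul a c)) fun n h1 h2 => ⟨rep c n, ?_⟩
    change rep a n * rep c n = rep b n
    rw [← h2]; exact h1
  · intro h
    have hb : ∃ k, Ev fun n => rep b n / rep a n < gg n k :=
      bound_of_lt (x := b) (ev_of_forall fun n => Nat.div_le_self _ _)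
    refine ⟨mk _ hb, ?_⟩
    change cmul a (mk _ hb) = b
    rw [car_ext]
    refine (Ev.and h (rep_cmul a (mk _ hb))).mp2 (rep_mk hb) ?_
    rintro n ⟨⟨c, hc⟩, h2⟩ h3
    have hc' : rep a n * c = rep b n := hc
    rw [h2, h3]
    exact Nat.mul_div_cancel' ⟨c, hc'.symm⟩

theorem AA_mem_iff (s i : Car) : i ∈ AA s ↔ Ev fun n => rep i n ∈ Aset (rep s n) (2 ^ n) := by
  constructor
  · rintro ⟨x, hx, rfl⟩
    refine ((Ev.and hx rep_bb).mp2 (rep_pair s x)) ?_
    rintro n ⟨h1, h2⟩ h3
    exact ⟨rep x n, by rw [← h2]; exact h1, h3⟩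
  · intro h
    obtain ⟨f, hf⟩ := choose_seq (P := fun n x => x < 2 ^ n ∧ rep i n = pr (rep s n) x) h
    have hfb : ∃ k, Ev fun n => f n < gg n k :=
      ⟨0, hf.mp fun n hn => by rw [gg_zero]; have := hn.1; omega⟩
    refine ⟨mk f hfb, (hf.and rep_bb).mp2 (rep_mk hfb) ?_, ?_⟩
    · rintro n ⟨h1, h2⟩ h3
      rw [h2, h3]; exact h1.1
    · rw [car_ext]
      refine (hf.and (rep_pair s (mk f hfb))).mp2 (rep_mk hfb) ?_
      rintro n ⟨h1, h2⟩ h3
      rw [h2, h3]; exact h1.2

theorem MM_preCode (s c : Car) : MM.PreCode c (AA s) ↔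
    Ev fun n => NM.PreCode (rep c n) (Aset (rep s n) (2 ^ n)) := by
  have hterm : ∀ m i : Car, Ev fun n => rep (MM.add (MM.mul m (MM.add i MM.one)) MM.one) n =
      rep m n * (rep i n + 1) + 1 := fun m i =>
    (rep_val (.add (.mul (.var 0) (.add (.var 1) .one)) .one) (fun j => if j = 0 then m else i)).mp fun _ hn => hn
  constructor
  · rintro ⟨k, m, n', hc, hi⟩
    have hc' : Ev fun n => rep c n = pr (rep k n) (pr (rep m n) (rep n' n)) := by
      rw [hc]
      exact (rep_pair k (MM.pair m n')).mp2 (rep_pair m n') fun n h1 h2 => by rw [h1, h2]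
    by_contra hcon
    rw [← ev_not] at hcon
    have h1 : Ev fun n => ∃ i, ¬ (i ∈ Aset (rep s n) (2 ^ n) ↔
        (i < rep k n ∧ NM.Dvd (rep m n * (i + 1) + 1) (rep n' n))) := by
      refine hcon.mp2 hc' fun n h1 h2 => ?_
      by_contra h3
      push Not at h3
      exact h1 ⟨rep k n, rep m n, rep n' n, h2, fun i => by
        by_contra h4; exact h4 (by have := h3 i; exact this)⟩
    obtain ⟨f, hf⟩ := choose_seq h1
    have hfb : ∃ k, Ev fun n => f n < gg n k := by
      -- a failing `i` is below `k` or of the form (s,x) with `x < b`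
      obtain ⟨k1, hk1⟩ := rep_bound k
      obtain ⟨k2, hk2⟩ := rep_bound s
      refine ⟨max k1 k2 + 1, (hf.and (bound_mono (le_max_left k1 k2) hk1)).mp2 (bound_mono (le_max_right k1 k2) hk2) ?_⟩
      rintro n ⟨h1, h2⟩ h3
      by_cases hmem : f n ∈ Aset (rep s n) (2 ^ n)
      · obtain ⟨x, hx, hfx⟩ := hmem
        rw [hfx]
        apply gr_lt
        apply (Gr_spec _).1 _ _ h3.le
        have h6 := (gg_strictMono n).monotone (Nat.zero_le (max k1 k2))
        rw [gg_zero] at h6
        omega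
      · by_cases hlt : f n < rep k n
        · exact (hlt.trans h2).trans (gg_strictMono n (Nat.lt_succ_self _))
        · exfalso
          apply h1
          constructor
          · intro h; exact absurd h hmem
          · intro h; exact absurd h.1 hlt
    have h2 := hi (mk f hfb)
    rw [AA_mem_iff, show (MM.lt (mk f hfb) k ↔ _) from Iff.rfl, MM_dvd] at h2
    have h3 : (Ev fun n => f n ∈ Aset (rep s n) (2 ^ n)) ↔
        Ev fun n => (f n < rep k n ∧ NM.Dvd (rep m n * (f n + 1) + 1) (rep n' n)) := by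
      constructor
      · intro h
        have h4 := h2.1 (h.mp2 (rep_mk hfb) fun n h1 h2 => by rw [h2]; exact h1)
        refine ((Ev.and h4.1 h4.2).and (rep_mk hfb)).mp2 (hterm m (mk f hfb)) ?_
        rintro n ⟨⟨h5, h6⟩, h7⟩ h8
        rw [h7] at h5 h8
        rw [h8] at h6
        exact ⟨h5, h6⟩
      · intro h
        have h4 := h2.2 ⟨h.mp2 (rep_mk hfb) fun n h1 h2 => by rw [h2]; exact h1.1, by
          refine (h.and (rep_mk hfb)).mp2 (hterm m (mk f hfb)) ?_
          rintro n ⟨h5, h7⟩ h8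
          rw [h7] at h8
          rw [h8]; exact h5.2⟩
        exact h4.mp2 (rep_mk hfb) fun n h1 h2 => by rw [h2] at h1; exact h1
    -- contradiction via the ultrafilter
    by_cases hA : Ev fun n => f n ∈ Aset (rep s n) (2 ^ n)
    · have hB := h3.1 hA
      have : Ev fun _ => False := (hf.and hA).mp2 hB fun n h1 h2 => h1.1 ⟨fun _ => h2, fun _ => h1.2⟩
      exact ev_const.1 this
    · have hB := mt h3.2 hA
      rw [← ev_not] at hA hB
      have : Ev fun _ => False := (hf.and hA).mp2 hB fun n h1 h2 =>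
        h1.1 ⟨fun h => absurd h h1.2, fun h => absurd h h2⟩
      exact ev_const.1 this
  · intro h
    obtain ⟨k, hk⟩ := choose_seq h
    obtain ⟨m, hm⟩ := choose_seq hk
    obtain ⟨n', hn'⟩ := choose_seq hm
    have hkb : ∃ l, Ev fun n => k n < gg n l := bound_of_lt (x := c) (hn'.mp fun n hn => by
      rw [show rep c n = pr (k n) (pr (m n) (n' n)) from hn.1]; exact le_pr_left _ _)
    have hmb : ∃ l, Ev fun n => m n < gg n l := bound_of_lt (x := c) (hn'.mp fun n hn => by
      rw [show rep c n = pr (k n) (pr (m n) (n' n)) from hn.1]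
      exact (le_pr_left _ _).trans (le_pr_right _ _))
    have hnb : ∃ l, Ev fun n => n' n < gg n l := bound_of_lt (x := c) (hn'.mp fun n hn => by
      rw [show rep c n = pr (k n) (pr (m n) (n' n)) from hn.1]
      exact (le_pr_right _ _).trans (le_pr_right _ _))
    refine ⟨mk k hkb, mk m hmb, mk n' hnb, ?_, fun i => ?_⟩
    · rw [car_ext]
      refine ((hn'.and (rep_mk hkb)).and ((rep_mk hmb).and (rep_mk hnb))).mp2
        ((rep_pair (mk k hkb) (MM.pair (mk m hmb) (mk n' hnb))).and (rep_pair (mk m hmb) (mk n' hnb))) ?_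
      rintro n ⟨⟨h1, h2⟩, h3, h4⟩ ⟨h5, h6⟩
      rw [h5, h6, h2, h3, h4]; exact h1.1
    · rw [AA_mem_iff, show (MM.lt i (mk k hkb) ↔ Ev fun n => rep i n < rep (mk k hkb) n) from Iff.rfl,
        MM_dvd, ← ev_and]
      apply Ev.congr
      refine ((hn'.and (rep_mk hkb)).and ((rep_mk hmb).and (rep_mk hnb))).mp2 (hterm (mk m hmb) i) ?_
      rintro n ⟨⟨h1, h2⟩, h3, h4⟩ h5
      rw [h5, h2, h3, h4]
      exact h1.2 (rep i n)

theorem MM_code (s c : Car) : MM.Code c (AA s) ↔
    Ev fun n => NM.Code (rep c n) (Aset (rep s n) (2 ^ n)) := by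
  constructor
  · rintro ⟨h1, h2⟩
    rw [MM_preCode] at h1
    by_contra hcon
    rw [← ev_not] at hcon
    have h3 : Ev fun n => ∃ c', NM.PreCode c' (Aset (rep s n) (2 ^ n)) ∧ c' < rep c n := by
      refine hcon.mp2 h1 fun n h3 h4 => ?_
      by_contra h5
      push Not at h5
      exact h3 ⟨h4, fun c' hc' hlt => h5 c' hc' hlt⟩
    obtain ⟨f, hf⟩ := choose_seq h3
    have hfb : ∃ k, Ev fun n => f n < gg n k := bound_of_lt (x := c) (hf.mp fun n hn => hn.2.le)
    apply h2 (mk f hfb)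
    · rw [MM_preCode]
      exact hf.mp2 (rep_mk hfb) fun n h1 h2 => by rw [h2]; exact h1.1
    · exact hf.mp2 (rep_mk hfb) fun n h1 h2 => by rw [h2]; exact h1.2
  · intro h
    refine ⟨(MM_preCode s c).2 (h.mp fun n hn => hn.1), fun c' hc' hlt => ?_⟩
    rw [MM_preCode] at hc'
    have : Ev fun _ => False := (h.and hc').mp2 hlt fun n h1 h2 => h1.1.2 _ h1.2 h2
    exact ev_const.1 this

/-- the sequence of codes -/
noncomputable def ZC : Set Car := {z | ∃ s c, z = MM.pair s c ∧ MM.Code c (AA s)}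

theorem ZC_finSeq : MM.FinSeq ZC AA := by
  refine ⟨?_, fun z hz => ?_, fun s => ?_⟩
  · have key : ∀ z : Car, z ∈ ZC ↔ Ev fun n => ∃ s c, rep z n = pr s c ∧ NM.Code c (Aset s (2 ^ n)) := by
      intro z
      constructor
      · rintro ⟨s, c, rfl, hc⟩
        rw [MM_code] at hc
        exact hc.mp2 (rep_pair s c) fun n h1 h2 => ⟨_, _, h2, h1⟩
      · intro h
        obtain ⟨f, hf⟩ := choose_seq h
        obtain ⟨g, hg⟩ := choose_seq hf
        have hfb : ∃ k, Ev fun n => f n < gg n k := bound_of_lt (x := z) (Ev.mp hg fun n hn => by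
          rw [hn.1]; exact le_pr_left _ _)
        have hgb : ∃ k, Ev fun n => g n < gg n k := bound_of_lt (x := z) (Ev.mp hg fun n hn => by
          rw [hn.1]; exact le_pr_right _ _)
        refine ⟨mk f hfb, mk g hgb, ?_, ?_⟩
        · rw [car_ext]
          refine ((hg.and (rep_mk hfb)).and (rep_mk hgb)).mp2 (rep_pair (mk f hfb) (mk g hgb)) ?_
          rintro n ⟨⟨h1, h2⟩, h3⟩ h4
          rw [h4, h2, h3]; exact h1.1
        · rw [MM_code]
          refine (hg.and (rep_mk hfb)).mp2 (rep_mk hgb) ?_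
          rintro n ⟨h1, h2⟩ h3
          rw [h2, h3]; exact h1.2
    have hform : ∀ z' y w, satN (a3 z' y w) (.mem (pairT (.var 1) (.var 2)) (Nat.pair 3 0)) ↔
        ∃ s c, y = pr s c ∧ NM.Code c (Aset s w) := by
      intro z' y w
      rw [satN_mem, val_pairT_NM]
      constructor
      · rintro ⟨s, c, b, h1, h2⟩
        obtain ⟨h3, h4⟩ := pr_inj h1
        have h4' : w = b := h4
        rw [← h4'] at h2
        exact ⟨s, c, h3, h2⟩
      · rintro ⟨s, c, h1, h2⟩
        refine ⟨s, c, w, ?_, h2⟩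
        rw [← h1]; rfl
    refine ⟨(.mem (pairT (.var 1) (.var 2)) (Nat.pair 3 0),
      .neg (.mem (pairT (.var 1) (.var 2)) (Nat.pair 3 0))), bb, fun z => ⟨?_, ?_⟩⟩
    · rw [key]
      constructor
      · intro h
        refine ⟨cst 0, h.mp2 rep_bb fun n h1 h2 => ?_⟩
        rw [hform, h2]; exact h1
      · rintro ⟨m, hm⟩
        refine hm.mp2 rep_bb fun n h1 h2 => ?_
        rw [hform, h2] at h1; exact h1
    · rw [key, ← ev_not]
      constructor
      · intro h
        refine ⟨cst 0, h.mp2 rep_bb fun n h1 h2 => ?_⟩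
        rw [satN_neg, hform, h2]; exact h1
      · rintro ⟨m, hm⟩
        refine hm.mp2 rep_bb fun n h1 h2 => ?_
        rw [satN_neg, hform, h2] at h1; exact h1
  · obtain ⟨s, c, h, -⟩ := hz
    exact ⟨s, c, h⟩
  · obtain ⟨k, hk⟩ := rep_bound s
    have hb : ∃ k, Ev fun n => codeA (rep s n) (2 ^ n) < gg n k := by
      refine ⟨k + 1, hk.mp fun n hn => gr_lt n k ((Gr_spec _).2.2.1 _ _ hn.le ?_)⟩
      have h6 := (gg_strictMono n).monotone (Nat.zero_le k)
      rw [gg_zero] at h6
      omega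
    have hc : MM.Code (mk _ hb) (AA s) := by
      rw [MM_code]
      exact (rep_mk hb).mp fun n hn => by rw [hn]; exact codeA_spec _ _
    refine ⟨mk _ hb, hc, fun c' => ⟨?_, ?_⟩⟩
    · rintro ⟨s1, c1, h1, h2⟩
      obtain ⟨rfl, rfl⟩ := pair_inj h1
      rw [MM_code] at h2 hc
      rw [car_ext]
      exact h2.mp2 hc fun n h3 h4 => NM_code_unique h3 h4
    · rintro rfl
      exact ⟨s, _, rfl, hc⟩

end Pool.Agent.Helper317.SOA
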