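import Pool.Agent.Helper317.BF

/-!
No definable choice function.
-/

namespace Pool.Agent.Helper317.SOA

open Function Filter

theorem desc_empty : Desc (.lt .zero .zero, .eq .zero .zero) (cst 0) ∅ := by
  intro x
  refine ⟨⟨fun h => absurd h (Set.notMem_empty _), ?_⟩, fun _ => ⟨cst 0, ev_of_forall fun n => rfl⟩,
    fun _ => Set.notMem_empty _⟩
  rintro ⟨m, hm⟩
  have : Ev fun _ => False := hm.mp fun n hn => Nat.lt_irrefl _ (satN_lt.1 hn)
  exact absurd (ev_const.1 this) id

/-- from a member of the fibre of `XX`, an index above all standard numbers at which the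
diagonalisation applies -/
theorem exists_index {s x : Car} (hs : Ev fun n => rep s n ≠ 0) (hx : MM.pair s x ∈ XX) :
    ∃ c : ℕ → ℕ, (∀ k, Ev fun n => k ≤ c n) ∧
      ∀ e, Ev fun n => rep x n ≠ diagF e (zz n (c n)) (rep s n) := by
  obtain ⟨d, hd⟩ := saturation (fun m n y => m ≤ y ∧ pr (rep s n) (rep x n) ∈ EE n y)
    (fun m n y h => ⟨(Nat.le_succ m).trans h.1, h.2⟩)
    (fun m => ((XX_stage hx m).mp2 (rep_pair s x) fun n h1 h2 => ⟨m, le_rfl, by rw [← h2]; exact h1⟩))
  have hdl : ∀ k, Ev fun n => k ≤ d n := fun k => (hd k).mp fun n hn => hn.1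
  obtain ⟨c, hc⟩ := saturation (fun m n y => m ≤ y ∧ ∀ e ≤ m, Nat.pair y e < d n)
    (fun m n y h => ⟨(Nat.le_succ m).trans h.1, fun e he => h.2 e (he.trans (Nat.le_succ m))⟩)
    (fun m => by
      obtain ⟨K, hK⟩ : ∃ K, ∀ e ≤ m, Nat.pair m e < K := by
        obtain ⟨K, hK⟩ := ((Set.finite_Iic m).image (fun e => Nat.pair m e)).bddAbove
        exact ⟨K + 1, fun e he => Nat.lt_succ_of_le (hK ⟨e, he, rfl⟩)⟩
      exact (hdl K).mp fun n hn => ⟨m, le_rfl, fun e he => (hK e he).trans_le hn⟩)
  refine ⟨c, fun k => (hc k).mp fun n hn => hn.1, fun e => ?_⟩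
  refine ((hd 0).and (hc e)).mp2 hs ?_
  rintro n ⟨⟨_, h1⟩, _, h2⟩ h3 h4
  obtain ⟨s', x', h5, h6⟩ := h1
  obtain ⟨h7, h8⟩ := pr_inj h5
  rcases h6 with h6 | ⟨_, _, h6⟩
  · exact h3 (h7.trans h6.1)
  · have := h6 _ (h2 e le_rfl)
    rw [Nat.unpair_pair, ← h7, ← h8, ← h4] at this
    simp at this

/-- a second realisation of the type of `x` -/
theorem exists_twin {s x : Car} {c : ℕ → ℕ} (hc : ∀ k, Ev fun n => k ≤ c n)
    (hd : ∀ e, Ev fun n => rep x n ≠ diagF e (zz n (c n)) (rep s n)) :
    ∃ x' : Car, x' ≠ x ∧ TEg (fun n => a3 (zz n (c n)) (rep s n) (rep x n))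
      (fun n => a3 (zz n (c n)) (rep s n) (rep x' n)) := by
  let γ : ℕ → ℕ → ℕ := fun n => a3 (zz n (c n)) (rep s n) (rep x n)
  let T : ℕ → Prop := fun e => Ev fun n => satN (γ n) (en e)
  obtain ⟨y, hy⟩ := saturation (fun m n y => y ≠ rep x n ∧ satN (a3 (zz n (c n)) (rep s n) y) (Bf T m))
    (fun m n y h => ⟨h.1, Bf_mono h.2⟩) (fun m => by
      obtain ⟨e, he⟩ := en_surj (Bf T m)
      refine (hd e).mp2 (Bf_self (γ := γ) m) fun n h1 h2 => ?_
      by_contra hcon
      push Not at hcon
      apply h1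
      symm
      apply diagF_eq
      · rw [he]; exact h2
      · intro y' hy'
        by_contra hne
        exact hcon y' hne (by rw [he] at hy'; exact hy'))
  have hTE : TEg γ (fun n => a3 (zz n (c n)) (rep s n) (y n)) := TEg_of_Bf fun m => (hy m).mp fun n hn => hn.2
  have hb : ∃ k, Ev fun n => y n < gg n k :=
    TEg_bound hTE hc (fun n => rfl) (fun n => rfl) 2 (rep_bound x)
  refine ⟨mk y hb, fun h => ?_, ?_⟩
  · rw [car_ext] at h
    have : Ev fun _ => False := ((hy 0).and h).mp2 (rep_mk hb) fun n h1 h2 => h1.1.1 (h2.symm.trans h1.2)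
    exact ev_const.1 this
  · intro Φ
    rw [show (Ev fun n => satN (a3 (zz n (c n)) (rep s n) (rep x n)) Φ) ↔ _ from hTE Φ]
    apply Ev.congr
    exact (rep_mk hb).mp fun n hn => by simp only [hn]

theorem no_choice (f : Car → Car) (hf : MM.DefFun f) : ∃ s, f s ∉ AA s ∩ XX := by
  by_contra hcon
  push Not at hcon
  obtain ⟨φ, v0, V0, hV0, hφ⟩ := hf
  obtain ⟨F0, w0, hFw⟩ := exists_desc hV0
  let N := φ.bd + φ.bdS + 2
  -- restrict the parameters
  let v : ℕ → Car := fun i => if i < N then v0 i else cst 0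
  let w : ℕ → Car := fun i => if i < N then w0 i else cst 0
  let V : ℕ → Set Car := fun i => if i < N then V0 i else ∅
  let F : ℕ → Fm × Fm := fun i => if i < N then F0 i else (.lt .zero .zero, .eq .zero .zero)
  have hdesc : ∀ i, Desc (F i) (w i) (V i) := by
    intro i
    by_cases hi : i < N
    · simp only [F, w, V, if_pos hi]; exact hFw i
    · simp only [F, w, V, if_neg hi]; exact desc_empty
  have hφ' : ∀ a b, f a = b ↔ Sat MM (update (update v 0 a) 1 b) V φ := by
    intro a b
    rw [hφ]
    apply sat_congr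
    · intro i hi
      have : i < N := by simp only [N]; omega
      by_cases h1 : i = 1
      · subst h1; rw [update_self, update_self]
      · rw [update_of_ne h1, update_of_ne h1]
        by_cases h0 : i = 0
        · subst h0; rw [update_self, update_self]
        · rw [update_of_ne h0, update_of_ne h0]; simp only [v, if_pos this]
    · intro i hi
      have : i < N := by simp only [N]; omega
      simp only [V, if_pos this]
  -- the parameter
  let L : ℕ → List ℕ := fun n => (List.range (2 * N)).map fun p =>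
    if p % 2 = 0 then rep (v (p / 2)) n else rep (w (p / 2)) n
  have hLb : ∃ k, Ev fun n => ∀ a ∈ L n, a < gg n k := by
    obtain ⟨k, hk1, hk2, -⟩ := exists_small v w N (cst 0)
    refine ⟨k, (ev_forall_lt _ hk1).mp2 (ev_forall_lt _ hk2) fun n h3 h4 => ?_⟩
    intro a ha
    simp only [L, List.mem_map, List.mem_range] at ha
    obtain ⟨p, hp, rfl⟩ := ha
    split
    · exact h3 _ (by omega)
    · exact h4 _ (by omega)
  have hb := bound_list (2 * N) L (fun n => by simp [L]) hLb
  let s : Car := mk (fun n => cdN (L n)) hb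
  have hs0 : Ev fun n => rep s n ≠ 0 := by
    refine (rep_mk hb).mp fun n hn => ?_
    change rep s n = cdN (L n) at hn
    rw [hn]
    have : L n = (if 0 % 2 = 0 then rep (v (0 / 2)) n else rep (w (0 / 2)) n) :: (L n).tail := by
      simp only [L]
      rw [show 2 * N = (2 * N - 1) + 1 by simp only [N]; omega, List.range_succ_eq_map]
      simp
    rw [this, cdN, Encodable.encode_list_cons]
    exact Nat.succ_ne_zero _
  have hentry : ∀ p < 2 * N, Ev fun n => (dcN (rep s n)).getD p 0 =
      if p % 2 = 0 then rep (v (p / 2)) n else rep (w (p / 2)) n := by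
    intro p hp
    refine (rep_mk hb).mp fun n hn => ?_
    change rep s n = cdN (L n) at hn
    rw [hn, dcN_cdN]
    simp only [L, List.getD_eq_getElem?_getD, List.getElem?_map]
    rw [List.getElem?_range hp]
    rfl
  have hentry2 : ∀ p, 2 * N ≤ p → Ev fun n => (dcN (rep s n)).getD p 0 = 0 := by
    intro p hp
    refine (rep_mk hb).mp fun n hn => ?_
    change rep s n = cdN (L n) at hn
    rw [hn, dcN_cdN]
    apply List.getD_eq_default
    simp only [L, List.length_map, List.length_range]; exact hp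
  obtain ⟨⟨x, hxb, hfx⟩, hX⟩ := hcon s
  rw [hfx] at hX
  obtain ⟨c, hc, hdiag⟩ := exists_index hs0 hX
  obtain ⟨x', hne, htype⟩ := exists_twin hc hdiag
  -- transfer of types
  have hval : ∀ x : Car, ∀ p, p ≠ 0 → Ev fun n => defv (rep s n) (rep x n) p =
      asg 0 (rv (update (update v 0 s) 1 (MM.pair s x)) n) (rv w n) p := by
    intro x p hp
    rcases pos_cases p with h | ⟨i, rfl⟩ | ⟨i, rfl⟩ | ⟨i, rfl⟩
    · exact absurd h hp
    · by_cases h0 : i = 0
      · subst h0
        exact ev_of_forall fun n => by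
          rw [asg_one]; unfold defv
          rw [if_pos (by omega), if_pos (by omega)]
          simp [rv]
      · by_cases h1 : i = 1
        · subst h1
          refine (rep_pair s x).mp fun n hn => ?_
          rw [asg_one]; unfold defv
          rw [if_pos (by omega), if_neg (by omega), if_pos (by omega), rv, update_self, hn]
        · have hv : ∀ n, rv (update (update v 0 s) 1 (MM.pair s x)) n i = rep (v i) n := by
            intro n; rw [rv, update_of_ne h1, update_of_ne h0]
          have hdf : ∀ n, defv (rep s n) (rep x n) (3 * i + 1) = (dcN (rep s n)).getD (2 * i) 0 := by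
            intro n; unfold defv
            rw [if_pos (by omega), if_neg (by omega), if_neg (by omega)]
            rw [show (3 * i + 1) / 3 = i by omega]
          by_cases hi : i < N
          · refine (hentry (2 * i) (by omega)).mp fun n hn => ?_
            rw [asg_one, hv, hdf, hn, if_pos (by omega)]
            rw [show 2 * i / 2 = i by omega]
          · refine (hentry2 (2 * i) (by omega)).mp2 (rep_cst 0) fun n hn h0' => ?_
            rw [asg_one, hv, hdf, hn]
            simp only [v, if_neg hi]; exact h0'.symm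
    · have hdf : ∀ n, defv (rep s n) (rep x n) (3 * i + 2) = (dcN (rep s n)).getD (2 * i + 1) 0 := by
        intro n; unfold defv
        rw [if_neg (by omega), if_pos (by omega)]
        rw [show (3 * i + 2) / 3 = i by omega]
      by_cases hi : i < N
      · refine (hentry (2 * i + 1) (by omega)).mp fun n hn => ?_
        rw [asg_two, hdf, hn, if_neg (by omega)]
        rw [show (2 * i + 1) / 2 = i by omega]; rfl
      · refine (hentry2 (2 * i + 1) (by omega)).mp2 (rep_cst 0) fun n hn h0' => ?_
        rw [asg_two, hdf, hn]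
        simp only [rv, w, if_neg hi]; exact h0'.symm
    · exact ev_of_forall fun n => by
        rw [asg_three]; unfold defv
        rw [if_neg (by omega), if_neg (by omega)]
  let D : ℕ → ℕ → Fm := fun M p => .mem (pairT (pairT (.var (M + 1)) (.var (M + 2))) (.var p)) (Nat.pair 6 p)
  have hD : ∀ M p, 1 ≤ p → p ≤ M → ∀ ρ, satN ρ (D M p) ↔ ρ p = defv (ρ (M + 1)) (ρ (M + 2)) p := by
    intro M p _ _ ρ
    simp only [D]
    rw [satN_mem, val_pairT_NM, val_pairT_NM]
    simp only [Tm.val]
    constructor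
    · rintro ⟨s, x, y, h1, h2⟩
      obtain ⟨h3, rfl⟩ := pr_inj h1
      obtain ⟨rfl, rfl⟩ := pr_inj h3
      exact h2
    · intro h; exact ⟨_, _, _, rfl, h⟩
  have hmain : ∀ x : Car, ∀ Φ : Fm, (Ev fun n => satN (asg (zz n (c n))
      (rv (update (update v 0 s) 1 (MM.pair s x)) n) (rv w n)) Φ) ↔
      Ev fun n => satN (a3 (zz n (c n)) (rep s n) (rep x n)) (conv (D (Φ.bd + 2)) (Φ.bd + 2) Φ) := by
    intro x Φ
    apply Ev.congr
    refine (ev_forall_lt Φ.bd (p := fun p n => p ≠ 0 → defv (rep s n) (rep x n) p =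
      asg 0 (rv (update (update v 0 s) 1 (MM.pair s x)) n) (rv w n) p) (fun p _ => ?_)).mp fun n hn => ?_
    · by_cases hp : p = 0
      · exact ev_of_forall fun n h => absurd hp h
      · exact (hval x p hp).mp fun n hn _ => hn
    · rw [satN_conv (val := fun p s x => defv s x p) (by omega) (by omega) (hD (Φ.bd + 2))]
      apply satN_congr
      intro p hp
      by_cases hp0 : p = 0
      · subst hp0; rfl
      · rw [if_neg hp0, hn p hp hp0]; simp [asg, hp0]
  have hTE : TE c (update (update v 0 s) 1 (MM.pair s x)) w (update (update v 0 s) 1 (MM.pair s x')) w := by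
    intro Φ
    rw [hmain x Φ, hmain x' Φ]
    exact htype _
  have hfin := BF hc φ _ _ _ _ F V V hTE hdesc hdesc
  rw [← hφ', ← hφ'] at hfin
  have h2 := hfin.1 hfx
  rw [hfx] at h2
  exact hne (pair_inj h2).2.symm

/-- the negative answer -/
theorem main : ∃ M : Model, RCA0 M ∧ BSigma 2 M ∧ ¬ ISigma 2 M ∧
    ∃ (X : Set M.Num) (A : M.Num → Set M.Num) (Z : Set M.Num),
      M.PiSet 2 X ∧ M.FinSeq Z A ∧ (∀ s t, s ≠ t → Disjoint (A s) (A t)) ∧
      (∀ s, (A s ∩ X).Nonempty) ∧
      ∀ f : M.Num → M.Num, M.DefFun f → ∃ s, f s ∉ A s ∩ X :=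
  ⟨MM, MM_RCA0, MM_collection, MM_not_ISigma2, XX, AA, ZC, XX_pi, ZC_finSeq, AA_disj,
    AA_inter_XX, no_choice⟩

end Pool.Agent.Helper317.SOA
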