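import Mathlib

/-!
Second-order arithmetic: terms, formulas, two-sorted structures, satisfaction, the strict prenex
hierarchy, the system RCA0, the induction and collection schemes, finite sets and their codes.
The conventions are those of Simpson's book.
-/

namespace Pool.Agent.Helper317.SOA

/-- Number terms; number variables are `var 0, var 1, ...`. -/
inductive Tm : Type
  | var : ℕ → Tm
  | zero : Tm
  | one : Tm
  | add : Tm → Tm → Tm
  | mul : Tm → Tm → Tm

/-- Formulas of second-order arithmetic. `mem t i` says that the value of `t` lies in the set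
variable with index `i`; `all i` quantifies the number variable `i` and `allS i` the set
variable `i`. -/
inductive Fm : Type
  | eq : Tm → Tm → Fm
  | lt : Tm → Tm → Fm
  | mem : Tm → ℕ → Fm
  | neg : Fm → Fm
  | and : Fm → Fm → Fm
  | all : ℕ → Fm → Fm
  | allS : ℕ → Fm → Fm

/-- Implication. -/
def Fm.imp (φ ψ : Fm) : Fm := .neg (.and φ (.neg ψ))

/-- Existential number quantifier. -/
def Fm.ex (i : ℕ) (φ : Fm) : Fm := .neg (.all i (.neg φ))

/-- A two-sorted structure: a number domain with `0, 1, +, *, <` and a family of subsets of the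
number domain over which the set variables range. -/
structure Model where
  Num : Type
  zero : Num
  one : Num
  add : Num → Num → Num
  mul : Num → Num → Num
  lt : Num → Num → Prop
  sets : Set (Set Num)

/-- Value of a term under an assignment of the number variables. -/
def Tm.val (M : Model) (v : ℕ → M.Num) : Tm → M.Num
  | .var i => v i
  | .zero => M.zero
  | .one => M.one
  | .add s t => M.add (s.val M v) (t.val M v)
  | .mul s t => M.mul (s.val M v) (t.val M v)

/-- Satisfaction of a formula; `v` assigns the number variables, `V` the set variables. -/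
def Sat (M : Model) : (ℕ → M.Num) → (ℕ → Set M.Num) → Fm → Prop
  | v, _, .eq s t => s.val M v = t.val M v
  | v, _, .lt s t => M.lt (s.val M v) (t.val M v)
  | v, V, .mem t i => t.val M v ∈ V i
  | v, V, .neg φ => ¬ Sat M v V φ
  | v, V, .and φ ψ => Sat M v V φ ∧ Sat M v V ψ
  | v, V, .all i φ => ∀ a : M.Num, Sat M (Function.update v i a) V φ
  | v, V, .allS i φ => ∀ A ∈ M.sets, Sat M v (Function.update V i A) φ

/-- The number variable `i` does not occur in the term. -/
def Tm.Fresh (i : ℕ) : Tm → Prop
  | .var j => j ≠ i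
  | .zero => True
  | .one => True
  | .add s t => s.Fresh i ∧ t.Fresh i
  | .mul s t => s.Fresh i ∧ t.Fresh i

/-- Bounded-quantifier formulas (no set quantifiers, set variables allowed). -/
inductive IsDelta0 : Fm → Prop
  | eq (s t : Tm) : IsDelta0 (.eq s t)
  | lt (s t : Tm) : IsDelta0 (.lt s t)
  | mem (t : Tm) (i : ℕ) : IsDelta0 (.mem t i)
  | neg {φ : Fm} : IsDelta0 φ → IsDelta0 (.neg φ)
  | and {φ ψ : Fm} : IsDelta0 φ → IsDelta0 ψ → IsDelta0 (.and φ ψ)
  | ball (i : ℕ) (t : Tm) {φ : Fm} : t.Fresh i → IsDelta0 φ →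
      IsDelta0 (.all i (.imp (.lt (.var i) t) φ))

/-- `IsLevel true n` are the strict prenex `Σ⁰ₙ` formulas and `IsLevel false n` the strict
prenex `Π⁰ₙ` formulas. -/
def IsLevel : Bool → ℕ → Fm → Prop
  | _, 0, φ => IsDelta0 φ
  | true, n + 1, φ => ∃ i ψ, φ = .ex i ψ ∧ IsLevel false n ψ
  | false, n + 1, φ => ∃ i ψ, φ = .all i ψ ∧ IsLevel true n ψ

/-- `Σ⁰ₙ` formulas. -/
def IsSigma (n : ℕ) (φ : Fm) : Prop := IsLevel true n φ

/-- `Π⁰ₙ` formulas. -/
def IsPi (n : ℕ) (φ : Fm) : Prop := IsLevel false n φ

/-- An assignment of the set variables by members of the second-order part. -/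
def Model.SetAsg (M : Model) (V : ℕ → Set M.Num) : Prop := ∀ j, V j ∈ M.sets

/-- The basic axioms of second-order arithmetic. -/
structure Basic (M : Model) : Prop where
  succ_ne_zero : ∀ n, M.add n M.one ≠ M.zero
  succ_inj : ∀ m n, M.add m M.one = M.add n M.one → m = n
  add_zero : ∀ m, M.add m M.zero = m
  add_succ : ∀ m n, M.add m (M.add n M.one) = M.add (M.add m n) M.one
  mul_zero : ∀ m, M.mul m M.zero = M.zero
  mul_succ : ∀ m n, M.mul m (M.add n M.one) = M.add (M.mul m n) m
  not_lt_zero : ∀ m, ¬ M.lt m M.zero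
  lt_succ : ∀ m n, M.lt m (M.add n M.one) ↔ (M.lt m n ∨ m = n)

/-- The scheme of `Σ⁰ₙ` induction, with number and set parameters. -/
def ISigma (n : ℕ) (M : Model) : Prop :=
  ∀ φ, IsSigma n φ → ∀ (i : ℕ) (v : ℕ → M.Num) (V : ℕ → Set M.Num), M.SetAsg V →
    Sat M (Function.update v i M.zero) V φ →
    (∀ a, Sat M (Function.update v i a) V φ →
      Sat M (Function.update v i (M.add a M.one)) V φ) →
    ∀ a, Sat M (Function.update v i a) V φ

/-- The scheme of `Σ⁰ₙ` collection (bounding), with number and set parameters. -/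
def BSigma (n : ℕ) (M : Model) : Prop :=
  ∀ φ, IsSigma n φ → ∀ (i j : ℕ), i ≠ j → ∀ (v : ℕ → M.Num) (V : ℕ → Set M.Num), M.SetAsg V →
    ∀ a, (∀ x, M.lt x a → ∃ y, Sat M (Function.update (Function.update v i x) j y) V φ) →
      ∃ b, ∀ x, M.lt x a →
        ∃ y, M.lt y b ∧ Sat M (Function.update (Function.update v i x) j y) V φ

/-- The scheme of `Δ⁰₁` comprehension, with number and set parameters. -/
def Delta1CA (M : Model) : Prop :=
  ∀ φ ψ, IsSigma 1 φ → IsPi 1 ψ → ∀ (i : ℕ) (v : ℕ → M.Num) (V : ℕ → Set M.Num), M.SetAsg V →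
    (∀ a, Sat M (Function.update v i a) V φ ↔ Sat M (Function.update v i a) V ψ) →
    {a | Sat M (Function.update v i a) V φ} ∈ M.sets

/-- The system `RCA₀`. -/
structure RCA0 (M : Model) : Prop where
  basic : Basic M
  induction : ISigma 1 M
  comprehension : Delta1CA M

/-- The pairing function: the square of a + b, plus a. -/
def Model.pair (M : Model) (a b : M.Num) : M.Num :=
  M.add (M.mul (M.add a b) (M.add a b)) a

/-- Divisibility in the number domain. -/
def Model.Dvd (M : Model) (a b : M.Num) : Prop := ∃ c, M.mul a c = b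

/-- `c` is a triple coding k, m, n with A = {i : i < k and m(i+1)+1 divides n}. -/
def Model.PreCode (M : Model) (c : M.Num) (A : Set M.Num) : Prop :=
  ∃ k m n, c = M.pair k (M.pair m n) ∧
    ∀ i, i ∈ A ↔ (M.lt i k ∧ M.Dvd (M.add (M.mul m (M.add i M.one)) M.one) n)

/-- `c` is the code of the finite set `A`: the least triple describing it. -/
def Model.Code (M : Model) (c : M.Num) (A : Set M.Num) : Prop :=
  M.PreCode c A ∧ ∀ c', M.PreCode c' A → ¬ M.lt c' c

/-- The set `Z` belongs to the structure and is the graph `{(s,c) : c is the code of A s}` of a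
sequence of codes of the finite sets `A s`. -/
def Model.FinSeq (M : Model) (Z : Set M.Num) (A : M.Num → Set M.Num) : Prop :=
  Z ∈ M.sets ∧ (∀ z ∈ Z, ∃ s c, z = M.pair s c) ∧
    ∀ s, ∃ c, M.Code c (A s) ∧ ∀ c', M.pair s c' ∈ Z ↔ c' = c

/-- `X` is defined in `M` by a `Π⁰ₙ` formula with number and set parameters. -/
def Model.PiSet (M : Model) (n : ℕ) (X : Set M.Num) : Prop :=
  ∃ φ, IsPi n φ ∧ ∃ (v : ℕ → M.Num) (V : ℕ → Set M.Num), M.SetAsg V ∧
    ∀ a, a ∈ X ↔ Sat M (Function.update v 0 a) V φ

/-- The graph of `f` is defined in `M` by some formula of second-order arithmetic (number and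
set quantifiers allowed), with number and set parameters. -/
def Model.DefFun (M : Model) (f : M.Num → M.Num) : Prop :=
  ∃ (φ : Fm) (v : ℕ → M.Num) (V : ℕ → Set M.Num), M.SetAsg V ∧
    ∀ a b, f a = b ↔ Sat M (Function.update (Function.update v 0 a) 1 b) V φ

end Pool.Agent.Helper317.SOA
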